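import Pool.Agent.NH24.GU.E
import Pool.Agent.R404.WZ.C

/-!
# Multiple zeta values of several weights, growing degree: linear forms
-/

set_option autoImplicit false

namespace Pool.Agent.NH24.GU

open Finset Filter
open Pool.Agent.NH24.GD (trunc mzv Near alpha near_data)
open Pool.Agent.Y760.ZG (mz)
open Pool.Agent.R404.WZ (Wd ar wt wt_cons)

lemma trunc_mz (w : List ℕ) : ∀ m, trunc w m = Pool.Agent.Y760.ZG.hr w m := by
  induction w with
  | nil => intro m; rw [trunc, Pool.Agent.Y760.ZG.hr_nil]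
  | cons s w ih =>
    intro m
    rw [trunc, Pool.Agent.Y760.ZG.hr_cons]
    exact Finset.sum_congr rfl fun j _ => by rw [ih]

lemma mzv_mz : mzv = mz := by
  funext w
  cases w with
  | nil => rw [mzv, mz]
  | cons s w =>
    rw [mzv, mz]
    exact tsum_congr fun m => by rw [trunc_mz]

/-- a combination with the parameters of `grow` is not small -/
lemma final {n : ℕ} {Θ : Fin n → ℝ} {c0 : ℝ} (hc0 : 0 < c0) {κ : ℕ} (hΘ : Meas Θ c0 κ)
    {a γ ε : ℝ} (ha : 0 ≤ a) (hγ0 : 0 < γ) (hγ1 : γ < 1) (hε : 0 < ε) :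
    ∃ c : ℝ, 0 < c ∧ c ≤ 1 ∧ ∃ k0 : ℕ, ∀ k : ℕ, k0 ≤ k → ∀ D R K C : ℕ,
      (D : ℝ) * Real.log (Real.log k) ≤ c * Real.log k → (R : ℝ) ≤ (Real.log k) ^ a →
      (k : ℝ) / Real.log k ≤ K → C ≤ 2 * k → K ≤ C → C - K ≤ R →
      ∀ (al : ℕ → ℕ) (S : Finset (List ℕ)), Dt K C D al S → ∀ P : List ℕ → Fin n → ℤ,
      (∃ w ∈ S, P w ≠ 0) → (∀ i, ∑ w ∈ S, |(P w i : ℝ)| ≤ (2 : ℝ) ^ ((k : ℝ) ^ γ)) →
      ((k : ℝ) ^ (ε * k))⁻¹ < |∑ w ∈ S, (∑ i, (P w i : ℝ) * Θ i) * mzv w| := by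
  obtain ⟨A, hA⟩ : ∃ A, A = max 1 (2 * ((∑ i, |Θ i|) + 1) / c0) := ⟨_, rfl⟩
  have hA1 : 1 ≤ A := by rw [hA]; exact le_max_left _ _
  have hA2 : 2 * ((∑ i, |Θ i|) + 1) / c0 ≤ A := by rw [hA]; exact le_max_right _ _
  obtain ⟨c, hc, hc1, k0, h0⟩ := grow hA1 κ ha hγ0 hγ1 hε
  refine ⟨c, hc, hc1, max k0 1, fun k hk D R K C hD hR hK hC hKC hCK al S hS P hP hPH => ?_⟩
  obtain ⟨W, L, Z, X, h1, h2, h3, h4, h5, h6, h7, h8⟩ := h0 k ((le_max_left _ _).trans hk) D R K C hD hR hK hC hCK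
  have hk0 : (0 : ℝ) < k := by
    have : 1 ≤ k := (le_max_right _ _).trans hk
    exact_mod_cast this
  have hH1 : (1 : ℝ) ≤ (2 : ℝ) ^ ((k : ℝ) ^ γ) := Real.one_le_rpow (by norm_num) (by positivity)
  have h9 := low hc0 hΘ hS hKC hP hH1 hPH h1 (Or.inr h2) h3 h4 h5 h6 hA1 hA2 h7
  refine lt_of_lt_of_le ?_ h9
  have hX0 : (0 : ℝ) < X := by exact_mod_cast h5
  rw [one_div]
  exact inv_strictAnti₀ (by positivity) h8


/-- **words** -/
theorem words {n : ℕ} {Θ : Fin n → ℝ} {c0 : ℝ} (hc0 : 0 < c0) {κ : ℕ} (hΘ : Meas Θ c0 κ)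
    {a γ ε : ℝ} (ha : 0 ≤ a) (hγ0 : 0 < γ) (hγ1 : γ < 1) (hε : 0 < ε) :
    ∃ c : ℝ, 0 < c ∧ c ≤ 1 ∧ ∃ N0 : ℕ, ∀ N : ℕ, N0 ≤ N → ∀ D J : ℕ,
      (D : ℝ) * Real.log (Real.log N) ≤ c * Real.log N → (J : ℝ) ≤ (Real.log N) ^ a →
      ∀ S : Finset Wd, (∀ w ∈ S, (∀ y ∈ w, 1 ≤ y.1 ∧ y.2 ≤ J) ∧ wt w ≤ D) → ∀ P : Wd → Fin n → ℤ,
      (∃ w ∈ S, P w ≠ 0) → (∀ i, ∑ w ∈ S, |(P w i : ℝ)| ≤ (2 : ℝ) ^ ((N : ℝ) ^ γ)) →
      ((N : ℝ) ^ (ε * N))⁻¹ < |∑ w ∈ S, (∑ i, (P w i : ℝ) * Θ i) * mz (ar N w)| := by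
  classical
  obtain ⟨c, hc, hc1, k0, h0⟩ := final hc0 hΘ (a := a + 1) (by linarith) hγ0 hγ1 hε
  have hk : Tendsto (fun k : ℕ => (k : ℝ)) atTop atTop := tendsto_natCast_atTop_atTop
  have hl : Tendsto (fun k : ℕ => Real.log k) atTop atTop := Real.tendsto_log_atTop.comp hk
  have f1 := hl.eventually_ge_atTop 4
  have f2 : ∀ᶠ k : ℕ in atTop, Real.log k ^ a ≤ (1 / 2) * (k : ℝ) ^ (1 : ℝ) := by
    have h1 := (isLittleO_log_rpow_rpow_atTop a one_pos).bound (show (0 : ℝ) < 1 / 2 by norm_num)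
    filter_upwards [hk.eventually h1, f1, eventually_ge_atTop 1] with k h2 h3 h4
    have hk0 : (0 : ℝ) < k := by exact_mod_cast h4
    rw [Real.norm_of_nonneg (Real.rpow_nonneg (by linarith) _), Real.norm_of_nonneg (by positivity)] at h2
    exact h2
  obtain ⟨k1, h1⟩ := eventually_atTop.1 (f1.and f2)
  refine ⟨c, hc, hc1, max (max k0 k1) 4, fun N hN D J hD hJ S hS P hP hPH => ?_⟩
  obtain ⟨g1, g2⟩ := h1 N (by omega)
  have hN4 : 4 ≤ N := by omega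
  have hNr : (4 : ℝ) ≤ N := by exact_mod_cast hN4
  rw [Real.rpow_one] at g2
  have hJN : 2 * J ≤ N := by
    have : 2 * (J : ℝ) ≤ N := by linarith
    exact_mod_cast this
  have hℓ0 : 0 < Real.log N := by linarith
  -- the index determines the word
  have hyy : ∀ w ∈ S, ∀ y ∈ w, (y.1 * N + y.2) / N = y.1 ∧ (y.1 * N + y.2) % N = y.2 := by
    intro w hw y hy
    have h2 := ((hS w hw).1 y hy).2
    rw [mul_comm]
    exact ⟨by rw [Nat.mul_add_div (by omega), Nat.div_eq_of_lt (by omega), add_zero],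
      by rw [Nat.mul_add_mod, Nat.mod_eq_of_lt (by omega)]⟩
  obtain ⟨inv, hinv⟩ : ∃ inv : List ℕ → Wd, ∀ v, inv v = v.map fun x => (x / N, x % N) :=
    ⟨_, fun _ => rfl⟩
  have hinvar : ∀ w ∈ S, inv (ar N w) = w := by
    intro w hw
    rw [hinv]
    unfold ar
    rw [List.map_map]
    conv_rhs => rw [← List.map_id w]
    refine List.map_congr_left fun y hy => ?_
    obtain ⟨h2, h3⟩ := hyy w hw y hy
    rw [Function.comp_apply, h2, h3]
    rfl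
  have hinj : Set.InjOn (ar N) (S : Set Wd) := by
    intro w hw w' hw' h
    rw [← hinvar w hw, ← hinvar w' hw', h]
  obtain ⟨S', hS'⟩ : ∃ S', S' = S.image (ar N) := ⟨_, rfl⟩
  have hwt : ∀ w ∈ S, ((ar N w).map fun x => x / N) = w.map Prod.fst := by
    intro w hw
    unfold ar
    rw [List.map_map]
    exact List.map_congr_left fun y hy => (hyy w hw y hy).1
  have hDt : Dt (N - 2) (N + J) D (fun x => x / N) S' := by
    refine ⟨fun v hv x hx => ?_, fun v hv => ?_⟩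
    · rw [hS', mem_image] at hv
      obtain ⟨w, hw, rfl⟩ := hv
      unfold ar at hx
      rw [List.mem_map] at hx
      obtain ⟨y, hy, rfl⟩ := hx
      obtain ⟨h2, h3⟩ := (hS w hw).1 y hy
      rw [(hyy w hw y hy).1]
      refine ⟨h2, ?_, ?_⟩
      · have h4 : y.1 * N = y.1 * (N - 2) + y.1 * 2 := by
          rw [← Nat.mul_add]
          congr 1
          omega
        omega
      · have h4 : J ≤ y.1 * J := Nat.le_mul_of_pos_left _ h2
        rw [Nat.mul_add]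
        omega
    · rw [hS', mem_image] at hv
      obtain ⟨w, hw, rfl⟩ := hv
      rw [hwt w hw]
      exact (hS w hw).2
  have hR : ((J + 2 : ℕ) : ℝ) ≤ (Real.log N) ^ (a + 1) := by
    rw [Real.rpow_add_one hℓ0.ne']
    push_cast
    have h2 : 1 ≤ Real.log N ^ a := Real.one_le_rpow (by linarith) ha
    nlinarith
  have hK : (N : ℝ) / Real.log N ≤ ((N - 2 : ℕ) : ℝ) := by
    rw [Nat.cast_sub (by omega), div_le_iff₀ hℓ0]
    push_cast
    nlinarith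
  have h2 := h0 N (by omega) D (J + 2) (N - 2) (N + J) hD hR hK (by omega) (by omega) (by omega)
    (fun x => x / N) S' hDt (fun v => P (inv v)) (by
      obtain ⟨w, hw, h3⟩ := hP
      refine ⟨ar N w, by rw [hS']; exact mem_image_of_mem _ hw, ?_⟩
      show P (inv (ar N w)) ≠ 0
      rw [hinvar w hw]
      exact h3) (fun i => by
      rw [hS', sum_image hinj]
      refine le_trans (le_of_eq ?_) (hPH i)
      exact sum_congr rfl fun w hw => by rw [hinvar w hw])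
  rw [hS', sum_image hinj, mzv_mz] at h2
  have h3 : ∑ w ∈ S, (∑ i, (P (inv (ar N w)) i : ℝ) * Θ i) * mz (ar N w) =
      ∑ w ∈ S, (∑ i, (P w i : ℝ) * Θ i) * mz (ar N w) :=
    sum_congr rfl fun w hw => by rw [hinvar w hw]
  rw [h3] at h2
  exact h2

end Pool.Agent.NH24.GU
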