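import Pool.Agent.NH24.GD.D

/-!
# Multiple zeta values of several weights, arguments near multiples of a number: the core
-/

set_option autoImplicit false

namespace Pool.Agent.NH24.GU

open Finset Filter
open Pool.Agent.NH24.GD (trunc mzv dec pw mem_dec sum_prod_le tendsto_trunc sz one_le_pw le_sz size_le
  dvd_size AA G1 G2 split pw_nil pw_cons pw_append_one pw_append_left pw_append Om_ge Om_primes uniq_primes)

/-- the data; `al x` is the multiple that belongs to the argument `x` -/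
structure Dt (K C D : ℕ) (al : ℕ → ℕ) (S : Finset (List ℕ)) : Prop where
  hS : ∀ w ∈ S, ∀ x ∈ w, 1 ≤ al x ∧ al x * K + 2 ≤ x ∧ x ≤ al x * C
  hsum : ∀ w ∈ S, (w.map al).sum ≤ D

lemma length_le_sum {a : List ℕ} (h : ∀ x ∈ a, 1 ≤ x) : a.length ≤ a.sum := by
  induction a with
  | nil => simp
  | cons x a ih =>
    have h2 := h x List.mem_cons_self
    have h3 := ih (fun y hy => h y (List.mem_cons_of_mem _ hy))
    rw [List.sum_cons, List.length_cons]
    omega

section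

variable {K C D : ℕ} {al : ℕ → ℕ} {S : Finset (List ℕ)} {c : List ℕ → ℤ} {H : ℝ}

lemma Dt.al_pos (h : Dt K C D al S) {w : List ℕ} (hw : w ∈ S) : ∀ x ∈ w.map al, 1 ≤ x := by
  intro x hx
  rw [List.mem_map] at hx
  obtain ⟨y, hy, rfl⟩ := hx
  exact (h.hS w hw y hy).1

lemma Dt.len (h : Dt K C D al S) {w : List ℕ} (hw : w ∈ S) : w.length ≤ D := by
  refine le_trans ?_ (h.hsum w hw)
  have := length_le_sum (h.al_pos hw)
  rwa [List.length_map] at this

lemma AA_int (h : Dt K C D al S) (c : List ℕ → ℤ) (B y : ℕ) :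
    ∃ z : ℤ, AA al S c B y * (y : ℝ) ^ C = z := by
  have h1 : ∀ w ∈ S, ∀ n ∈ (dec w.length (B + 1)).filter (fun n => sz al n w = y), ∃ z : ℤ,
      (c w : ℝ) / (pw n w : ℝ) * (y : ℝ) ^ C = z := by
    intro w hw n hn
    rw [mem_filter, mem_dec] at hn
    obtain ⟨⟨h2, h3, h4⟩, h5⟩ := hn
    obtain ⟨q, hq⟩ := dvd_size al C n w h2 (fun x hx => (h.hS w hw x hx).2.2)
    have h6 : (0 : ℝ) < pw n w := by exact_mod_cast one_le_pw n w h4
    refine ⟨c w * q, ?_⟩
    rw [← h5]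
    have h7 : ((sz al n w : ℕ) : ℝ) ^ C = (pw n w : ℝ) * q := by exact_mod_cast hq
    rw [h7]
    push_cast
    field_simp
  choose! z hz using h1
  refine ⟨∑ w ∈ S, ∑ n ∈ (dec w.length (B + 1)).filter (fun n => sz al n w = y), z w n, ?_⟩
  unfold AA
  rw [sum_mul]
  push_cast
  refine sum_congr rfl fun w hw => ?_
  rw [sum_mul]
  exact sum_congr rfl fun n hn => hz w hw n hn

/-- a sum over tuples of size at least `y` -/
lemma part_le (h : Dt K C D al S) (hH : ∑ w ∈ S, |(c w : ℝ)| ≤ H) (B : ℕ) {y : ℝ} (hy : 0 < y)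
    (Q : List ℕ → List ℕ → Prop) [∀ w, DecidablePred (Q w)] (hQ : ∀ w ∈ S, ∀ n, Q w n → y ≤ sz al n w) :
    |∑ w ∈ S, ∑ n ∈ (dec w.length (B + 1)).filter (Q w), (c w : ℝ) / (pw n w : ℝ)| ≤
      2 ^ D * H / y ^ K := by
  refine (abs_sum_le_sum_abs _ _).trans ?_
  calc ∑ w ∈ S, |∑ n ∈ (dec w.length (B + 1)).filter (Q w), (c w : ℝ) / (pw n w : ℝ)|
      ≤ ∑ w ∈ S, |(c w : ℝ)| * (2 ^ D / y ^ K) := by
        refine sum_le_sum fun w hw => ?_
        refine (abs_sum_le_sum_abs _ _).trans ?_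
        calc ∑ n ∈ (dec w.length (B + 1)).filter (Q w), |(c w : ℝ) / (pw n w : ℝ)|
            ≤ ∑ n ∈ (dec w.length (B + 1)).filter (Q w),
                |(c w : ℝ)| / y ^ K * (1 / ((n.prod : ℕ) : ℝ) ^ 2) := by
              refine sum_le_sum fun n hn => ?_
              rw [mem_filter, mem_dec] at hn
              obtain ⟨⟨h2, h3, h4⟩, h5⟩ := hn
              have h6 : (0 : ℝ) < pw n w := by exact_mod_cast one_le_pw n w h4
              have h7 := size_le al K n w h2 h4 (fun x hx => (h.hS w hw x hx).2.1)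
              have h8 : 1 ≤ n.prod := List.prod_pos h4
              have h9 : (0 : ℝ) < (n.prod : ℕ) := by exact_mod_cast h8
              have h10 : y ^ K * ((n.prod : ℕ) : ℝ) ^ 2 ≤ (pw n w : ℝ) := by
                calc y ^ K * ((n.prod : ℕ) : ℝ) ^ 2
                    ≤ ((sz al n w : ℕ) : ℝ) ^ K * ((n.prod : ℕ) : ℝ) ^ 2 := by
                      refine mul_le_mul_of_nonneg_right ?_ (by positivity)
                      exact pow_le_pow_left₀ hy.le (hQ w hw n h5) K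
                  _ ≤ (pw n w : ℝ) := by exact_mod_cast h7
              rw [abs_div, abs_of_pos h6, div_mul_div_comm, mul_one]
              exact div_le_div_of_nonneg_left (abs_nonneg _) (by positivity) h10
          _ ≤ ∑ n ∈ dec w.length (B + 1), |(c w : ℝ)| / y ^ K * (1 / ((n.prod : ℕ) : ℝ) ^ 2) :=
              sum_le_sum_of_subset_of_nonneg (filter_subset _ _) fun _ _ _ => by positivity
          _ = |(c w : ℝ)| / y ^ K * ∑ n ∈ dec w.length (B + 1), 1 / ((n.prod : ℕ) : ℝ) ^ 2 := by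
              rw [mul_sum]
          _ ≤ |(c w : ℝ)| / y ^ K * 2 ^ w.length :=
              mul_le_mul_of_nonneg_left (sum_prod_le _ _) (by positivity)
          _ ≤ |(c w : ℝ)| / y ^ K * 2 ^ D :=
              mul_le_mul_of_nonneg_left (pow_le_pow_right₀ (by norm_num) (h.len hw)) (by positivity)
          _ = |(c w : ℝ)| * (2 ^ D / y ^ K) := by ring
    _ = (∑ w ∈ S, |(c w : ℝ)|) * (2 ^ D / y ^ K) := by rw [sum_mul]
    _ ≤ H * (2 ^ D / y ^ K) := mul_le_mul_of_nonneg_right hH (by positivity)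
    _ = 2 ^ D * H / y ^ K := by ring

lemma AA_le (h : Dt K C D al S) (hH : ∑ w ∈ S, |(c w : ℝ)| ≤ H) (B : ℕ) {y : ℕ} (hy : 1 ≤ y) :
    |AA al S c B y| ≤ 2 ^ D * H / (y : ℝ) ^ K := by
  have hy0 : (0 : ℝ) < y := by exact_mod_cast hy
  exact part_le h hH B hy0 (fun w n => sz al n w = y) fun w _ n hn => by rw [hn]

lemma G2_le (h : Dt K C D al S) (hH : ∑ w ∈ S, |(c w : ℝ)| ≤ H) (M x : ℕ) :
    |G2 al S c M x| ≤ 2 ^ D * H / ((x : ℝ) + 1) ^ K := by
  have hx0 : (0 : ℝ) < (x : ℝ) + 1 := by positivity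
  refine part_le h hH M hx0 (fun w n => ¬ sz al n w ≤ x) fun w _ n hn => ?_
  have : x + 1 ≤ sz al n w := by omega
  exact_mod_cast this

lemma G1_eq (h : Dt K C D al S) (c : List ℕ → ℤ) {M B x : ℕ} (hM : x ≤ M) (hB : x ≤ B) :
    G1 al S c M x = ∑ y ∈ Icc 1 x, AA al S c B y := by
  unfold G1 AA
  rw [sum_comm]
  refine sum_congr rfl fun w hw => ?_
  have h1 : ∀ N, x ≤ N → ∀ n, (n ∈ (dec w.length (N + 1)).filter (fun n => sz al n w ≤ x)) ↔
      (n.length = w.length ∧ n.Pairwise (· > ·) ∧ (∀ y ∈ n, 1 ≤ y) ∧ sz al n w ≤ x) := by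
    intro N hN n
    rw [mem_filter, mem_dec, List.pairwise_cons]
    constructor
    · rintro ⟨⟨h2, h3, h4⟩, h5⟩
      exact ⟨h2, h3.2, h4, h5⟩
    · rintro ⟨h2, h3, h4, h5⟩
      refine ⟨⟨h2, ⟨fun y hy => ?_, h3⟩, h4⟩, h5⟩
      have := le_sz al n w h2 h4 (fun x hx => (h.hS w hw x hx).1) y hy
      omega
  have h2 : (dec w.length (M + 1)).filter (fun n => sz al n w ≤ x) =
      (dec w.length (B + 1)).filter (fun n => sz al n w ≤ x) := by
    ext n
    rw [h1 M hM, h1 B hB]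
  rw [h2]
  have h3 : ∀ n ∈ (dec w.length (B + 1)).filter (fun n => sz al n w ≤ x), sz al n w ∈ Icc 1 x := by
    intro n hn
    rw [h1 B hB] at hn
    rw [mem_Icc]
    exact ⟨one_le_pw _ _ hn.2.2.1, hn.2.2.2⟩
  rw [← Finset.sum_fiberwise_of_maps_to h3]
  refine sum_congr rfl fun y hy => ?_
  rw [mem_Icc] at hy
  refine sum_congr ?_ fun _ _ => rfl
  ext n
  simp only [mem_filter]
  constructor
  · rintro ⟨⟨h4, _⟩, h5⟩
    exact ⟨h4, h5⟩
  · rintro ⟨h4, h5⟩
    exact ⟨⟨h4, by omega⟩, h5⟩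

end

end Pool.Agent.NH24.GU
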