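import Pool.Agent.NH24.GU.A

/-!
# Multiple zeta values of several weights: tuples with entries at least two
-/

set_option autoImplicit false

namespace Pool.Agent.NH24.GU

open Finset Filter
open Pool.Agent.NH24.GD (trunc mzv dec pw mem_dec sum_prod_le tendsto_trunc sz one_le_pw le_sz size_le
  dvd_size AA G1 G2 split pw_nil pw_cons pw_append_one pw_append_left pw_append Om_ge Om_primes uniq_primes)

/-- the tuples with entries at least two -/
def de (s m : ℕ) : Finset (List ℕ) := (dec s m).filter fun n => ∀ x ∈ n, 2 ≤ x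

lemma mem_de {s m : ℕ} {n : List ℕ} :
    n ∈ de s m ↔ n.length = s ∧ (m :: n).Pairwise (· > ·) ∧ ∀ x ∈ n, 2 ≤ x := by
  rw [de, mem_filter, mem_dec]
  constructor
  · rintro ⟨⟨h1, h2, -⟩, h3⟩
    exact ⟨h1, h2, h3⟩
  · rintro ⟨h1, h2, h3⟩
    exact ⟨⟨h1, h2, fun x hx => by
      have := h3 x hx
      omega⟩, h3⟩

lemma dec_zero (m : ℕ) : dec 0 m = {[]} := rfl

lemma de_zero (m : ℕ) : de 0 m = {[]} := by
  rw [de, dec_zero, filter_true_of_mem]
  intro n hn x hx
  rw [mem_singleton] at hn
  subst hn
  simp at hx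

lemma dec_succ (s m : ℕ) (hm : 2 ≤ m) : dec (s + 1) m =
    de (s + 1) m ∪ (de s m).image (fun n => n ++ [1]) := by
  ext n
  rw [mem_union, mem_dec, mem_de, mem_image]
  constructor
  · rintro ⟨h1, h2, h3⟩
    by_cases h4 : ∀ x ∈ n, 2 ≤ x
    · exact Or.inl ⟨h1, h2, h4⟩
    · right
      have hnn : n ≠ [] := by
        rintro rfl
        simp at h1
      obtain ⟨n0, y, hny⟩ : ∃ n0 y, n = n0 ++ [y] := ⟨_, _, (List.dropLast_append_getLast hnn).symm⟩
      subst hny
      have h5 : ((m :: n0) ++ [y]).Pairwise (· > ·) := by simpa using h2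
      rw [List.pairwise_append] at h5
      obtain ⟨h6, -, h7⟩ := h5
      have hy1 : 1 ≤ y := h3 y (by simp)
      have hy : y = 1 := by
        by_contra hy
        apply h4
        intro x hx
        rw [List.mem_append, List.mem_singleton] at hx
        rcases hx with hx | hx
        · have := h7 x (List.mem_cons_of_mem _ hx) y (by simp)
          omega
        · omega
      subst hy
      refine ⟨n0, mem_de.2 ⟨by simpa using h1, h6, fun x hx => ?_⟩, rfl⟩
      have := h7 x (List.mem_cons_of_mem _ hx) 1 (by simp)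
      omega
  · rintro (⟨h1, h2, h3⟩ | ⟨n0, h4, rfl⟩)
    · exact ⟨h1, h2, fun x hx => by
        have := h3 x hx
        omega⟩
    · rw [mem_de] at h4
      obtain ⟨h1, h2, h3⟩ := h4
      refine ⟨by simp [h1], ?_, fun x hx => ?_⟩
      · have h5 : ((m :: n0) ++ [1]).Pairwise (· > ·) := by
          rw [List.pairwise_append]
          refine ⟨h2, by simp, fun x hx y hy => ?_⟩
          rw [List.mem_singleton] at hy
          subst hy
          rcases List.mem_cons.1 hx with rfl | hx
          · omega
          · have := h3 x hx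
            omega
        simpa using h5
      · rw [List.mem_append, List.mem_singleton] at hx
        rcases hx with hx | hx
        · have := h3 x hx
          omega
        · omega

lemma sum_dec_succ (s m : ℕ) (hm : 2 ≤ m) (g : List ℕ → ℝ) :
    ∑ n ∈ dec (s + 1) m, g n = ∑ n ∈ de (s + 1) m, g n + ∑ n ∈ de s m, g (n ++ [1]) := by
  rw [dec_succ s m hm, sum_union, sum_image (fun a _ b _ h => (List.append_left_inj [1]).1 h)]
  rw [disjoint_left]
  intro n hn hn'
  rw [mem_de] at hn
  rw [mem_image] at hn'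
  obtain ⟨n0, -, rfl⟩ := hn'
  have := hn.2.2 1 (by simp)
  omega

/-- the sum over the tuples with entries at least two -/
noncomputable def gg (al : ℕ → ℕ) (B y : ℕ) (w : List ℕ) : ℝ :=
  ∑ n ∈ (de w.length (B + 1)).filter (fun n => sz al n w = y), 1 / (pw n w : ℝ)

lemma inner_eq (al : ℕ → ℕ) {B : ℕ} (hB : 1 ≤ B) (y : ℕ) (w : List ℕ) (c : ℤ) :
    ∑ n ∈ (dec w.length (B + 1)).filter (fun n => sz al n w = y), (c : ℝ) / (pw n w : ℝ) =
      c * gg al B y w + (if w = [] then 0 else c * gg al B y w.dropLast) := by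
  rcases List.eq_nil_or_concat w with h1 | ⟨v, x, h1⟩
  · subst h1
    rw [if_pos rfl, add_zero, gg, List.length_nil, dec_zero, de_zero, mul_sum]
    exact sum_congr rfl fun n _ => by rw [mul_one_div]
  · rw [List.concat_eq_append] at h1
    subst h1
    have hne : v ++ [x] ≠ [] := by simp
    rw [if_neg hne, List.dropLast_concat, gg, gg, sum_filter, sum_filter, sum_filter,
      List.length_append, List.length_singleton, sum_dec_succ _ _ (by omega), mul_sum, mul_sum]
    refine congrArg₂ (· + ·) (sum_congr rfl fun n _ => ?_) (sum_congr rfl fun n hn => ?_)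
    · split_ifs
      · rw [mul_one_div]
      · rw [mul_zero]
    · rw [mem_de] at hn
      have h2 : pw (n ++ [1]) (v ++ [x]) = pw n v := by
        rw [pw_append_one, pw_append_left _ _ _ hn.1.le]
      have h3 : sz al (n ++ [1]) (v ++ [x]) = sz al n v := by
        rw [sz, sz, pw_append_one, List.map_append, pw_append_left _ _ _ (by rw [List.length_map]; exact hn.1.le)]
      rw [h2, h3]
      split_ifs
      · rw [mul_one_div]
      · rw [mul_zero]

section

variable {K C D : ℕ} {al : ℕ → ℕ} {S : Finset (List ℕ)} {c : List ℕ → ℤ} {H : ℝ}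

/-- the coefficient of a tuple with entries at least two -/
def CC (S : Finset (List ℕ)) (c : List ℕ → ℤ) (w : List ℕ) : ℤ :=
  ∑ v ∈ S.filter (fun v => v = w), c v + ∑ v ∈ (S.filter (fun v => v ≠ [])).filter (fun v => v.dropLast = w), c v

/-- the indices and their initial parts -/
def S1 (S : Finset (List ℕ)) : Finset (List ℕ) := S ∪ S.image List.dropLast

lemma AA_eq (al : ℕ → ℕ) (S : Finset (List ℕ)) (c : List ℕ → ℤ) {B : ℕ} (hB : 1 ≤ B) (y : ℕ) :
    AA al S c B y = ∑ w ∈ S1 S, (CC S c w : ℝ) * gg al B y w := by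
  unfold AA
  rw [sum_congr rfl fun w _ => inner_eq al hB y w (c w), sum_add_distrib]
  have h1 : ∑ w ∈ S, (c w : ℝ) * gg al B y w =
      ∑ w ∈ S1 S, ((∑ v ∈ S.filter (fun v => v = w), c v : ℤ) : ℝ) * gg al B y w := by
    rw [← Finset.sum_fiberwise_of_maps_to (g := fun v => v) (t := S1 S)
      (fun v hv => mem_union_left _ hv)]
    refine sum_congr rfl fun w _ => ?_
    push_cast
    rw [sum_mul]
    refine sum_congr rfl fun v hv => ?_
    rw [mem_filter] at hv
    rw [hv.2]
  have h2 : ∑ w ∈ S, (if w = [] then 0 else (c w : ℝ) * gg al B y w.dropLast) =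
      ∑ w ∈ S1 S, ((∑ v ∈ (S.filter (fun v => v ≠ [])).filter (fun v => v.dropLast = w), c v : ℤ) : ℝ) *
        gg al B y w := by
    have h3 : ∑ w ∈ S, (if w = [] then 0 else (c w : ℝ) * gg al B y w.dropLast) =
        ∑ w ∈ S.filter (fun v => v ≠ []), (c w : ℝ) * gg al B y w.dropLast := by
      rw [sum_filter]
      refine sum_congr rfl fun w _ => ?_
      by_cases hw : w = []
      · rw [if_pos hw, if_neg (fun h => h hw)]
      · rw [if_neg hw, if_pos hw]
    rw [h3, ← Finset.sum_fiberwise_of_maps_to (g := fun v => v.dropLast) (t := S1 S)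
      (fun v hv => mem_union_right _ (mem_image_of_mem _ (mem_filter.1 hv).1))]
    refine sum_congr rfl fun w _ => ?_
    push_cast
    rw [sum_mul]
    refine sum_congr rfl fun v hv => ?_
    rw [mem_filter] at hv
    rw [hv.2]
  rw [h1, h2, ← sum_add_distrib]
  refine sum_congr rfl fun w _ => ?_
  rw [CC]
  push_cast
  ring

lemma CC_le (hH : ∑ w ∈ S, |(c w : ℝ)| ≤ H) (w : List ℕ) : |(CC S c w : ℝ)| ≤ H := by
  refine le_trans ?_ hH
  rw [CC]
  push_cast
  refine (abs_add_le _ _).trans ?_
  refine (add_le_add (abs_sum_le_sum_abs _ _) (abs_sum_le_sum_abs _ _)).trans ?_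
  rw [← sum_union]
  · refine sum_le_sum_of_subset_of_nonneg ?_ fun _ _ _ => abs_nonneg _
    intro v hv
    rw [mem_union, mem_filter, mem_filter, mem_filter] at hv
    rcases hv with hv | hv
    · exact hv.1
    · exact hv.1.1
  · rw [disjoint_left]
    intro v hv hv'
    rw [mem_filter] at hv hv'
    rw [mem_filter] at hv'
    have h1 := hv'.2
    rw [← hv.2] at h1
    have h2 := congrArg List.length h1
    rw [List.length_dropLast] at h2
    have h3 : 0 < v.length := List.length_pos_of_ne_nil hv'.1.2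
    omega

/-- the coefficients are determined -/
lemma zero_of_CC (h : ∀ w ∈ S, CC S c w = 0) : ∀ w ∈ S, c w = 0 := by
  classical
  by_contra hcon
  push Not at hcon
  obtain ⟨w0, hw0, hmax⟩ := Finset.exists_max_image (S.filter fun w => c w ≠ 0) List.length (by
    obtain ⟨w, hw, hw0⟩ := hcon
    exact ⟨w, mem_filter.2 ⟨hw, hw0⟩⟩)
  rw [mem_filter] at hw0
  have h1 := h w0 hw0.1
  rw [CC] at h1
  have h2 : ∑ v ∈ (S.filter (fun v => v ≠ [])).filter (fun v => v.dropLast = w0), c v = 0 := by
    refine sum_eq_zero fun v hv => ?_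
    rw [mem_filter, mem_filter] at hv
    by_contra hcv
    have h3 := hmax v (mem_filter.2 ⟨hv.1.1, hcv⟩)
    have h4 := congrArg List.length hv.2
    rw [List.length_dropLast] at h4
    have h5 : 0 < v.length := List.length_pos_of_ne_nil hv.1.2
    omega
  have h3 : S.filter (fun v => v = w0) = {w0} := by
    ext v
    rw [mem_filter, mem_singleton]
    constructor
    · exact fun hv => hv.2
    · rintro rfl
      exact ⟨hw0.1, rfl⟩
  rw [h2, h3, sum_singleton, add_zero] at h1
  exact hw0.2 h1

lemma Dt.S1 (h : Dt K C D al S) : Dt K C D al (S1 S) := by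
  refine ⟨fun w hw => ?_, fun w hw => ?_⟩
  · rw [GU.S1, mem_union, mem_image] at hw
    rcases hw with hw | ⟨v, hv, rfl⟩
    · exact h.hS w hw
    · exact fun x hx => h.hS v hv x (List.mem_of_mem_dropLast hx)
  · rw [GU.S1, mem_union, mem_image] at hw
    rcases hw with hw | ⟨v, hv, rfl⟩
    · exact h.hsum w hw
    · refine le_trans ?_ (h.hsum v hv)
      rw [List.map_dropLast]
      exact (List.dropLast_sublist _).sum_le_sum fun _ _ => Nat.zero_le _

/-- the class of a tuple of primes -/
lemma class_sum (h : Dt K C D al S) {a : List ℕ} (ha : ∀ x ∈ a, 1 ≤ x)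
    (hlow : ∀ w ∈ S1 S, (w.map al).sum < a.sum → CC S c w = 0)
    {ps : List ℕ} (hlen : ps.length = a.length) (hp : ∀ x ∈ ps, x.Prime) (hs : ps.Pairwise (· > ·))
    {B : ℕ} (hB1 : 1 ≤ B) (hB : pw ps a ≤ B) :
    AA al S c B (pw ps a) = ∑ w ∈ (S1 S).filter (fun w => w.map al = a), (CC S c w : ℝ) / (pw ps w : ℝ) := by
  classical
  rw [AA_eq al S c hB1, sum_filter]
  refine sum_congr rfl fun w hw => ?_
  have hal : ∀ x ∈ w.map al, 1 ≤ x := h.S1.al_pos hw
  by_cases hl : (w.map al).sum < a.sum
  · rw [hlow w hw hl]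
    simp
  have key : ∀ n ∈ (de w.length (B + 1)).filter (fun n => sz al n w = pw ps a), n = ps ∧ w.map al = a := by
    intro n hn
    rw [mem_filter, mem_de] at hn
    obtain ⟨⟨h2, h3, h4⟩, h5⟩ := hn
    have h6 : n.length = (w.map al).length := by rw [h2, List.length_map]
    obtain ⟨h7, h8⟩ := Om_ge n (w.map al) h6 h4 hal
    have h9 := Om_primes ps a hlen hp
    rw [← h5, sz] at h9
    have h10 := h8 (by omega)
    exact uniq_primes n (w.map al) ps a h6 hlen (List.pairwise_cons.1 h3).2 hs h10 hp hal ha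
      (by rw [← h5, sz])
  split_ifs with hif
  · have h1 : (de w.length (B + 1)).filter (fun n => sz al n w = pw ps a) = {ps} := by
      ext n
      rw [mem_singleton]
      constructor
      · intro hn
        exact (key n hn).1
      · rintro rfl
        have hlw : n.length = w.length := by rw [hlen, ← hif, List.length_map]
        rw [mem_filter, mem_de]
        refine ⟨⟨hlw, ?_, fun x hx => (hp x hx).two_le⟩, by rw [sz, hif]⟩
        rw [List.pairwise_cons]
        refine ⟨fun y hy => ?_, hs⟩
        have h2 := le_sz al n w hlw (fun x hx => (hp x hx).one_le)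
          (fun x hx => (h.S1.hS w hw x hx).1) y hy
        rw [sz, hif] at h2
        omega
    rw [gg, h1, sum_singleton, mul_one_div]
  · rw [gg, sum_eq_zero, mul_zero]
    intro n hn
    exact absurd (key n hn).2 hif

end

end Pool.Agent.NH24.GU
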