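import Pool.Agent.NH24.GU.B

/-!
# Multiple zeta values of several weights: a class whose sum does not vanish
-/

set_option autoImplicit false

namespace Pool.Agent.NH24.GU

open Finset Filter
open Pool.Agent.NH24.GD (trunc mzv dec pw mem_dec sum_prod_le tendsto_trunc sz one_le_pw le_sz size_le
  dvd_size AA G1 G2 split pw_nil pw_cons pw_append_one pw_append_left pw_append Om_ge Om_primes uniq_primes
  elim pw_le pw_append_single)

/-- blocks of consecutive primes -/
noncomputable def BL (m W : ℕ) : ℕ → List (Finset ℕ)
  | 0 => []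
  | r + 1 => ((range (W + 1)).image fun i => Nat.nth Nat.Prime (m + r * (W + 1) + i)) :: BL m W r

lemma BL_length (m W r : ℕ) : (BL m W r).length = r := by
  induction r with
  | zero => rfl
  | succ r ih => rw [BL, List.length_cons, ih]

lemma BL_card {m W : ℕ} : ∀ (r : ℕ) (P : Finset ℕ), P ∈ BL m W r → W < P.card ∧ ∀ l ∈ P, 1 ≤ l
  | 0, _, h => by simp [BL] at h
  | r + 1, P, h => by
    rw [BL] at h
    rcases List.mem_cons.1 h with h | h
    · subst h
      rw [card_image_of_injective, card_range]
      · refine ⟨Nat.lt_succ_self W, fun l hl => ?_⟩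
        rw [mem_image] at hl
        obtain ⟨i, -, rfl⟩ := hl
        exact (Nat.nth_mem_of_infinite Nat.infinite_setOfPred_prime _).one_le
      · intro i j hij
        have := (Nat.nth_strictMono Nat.infinite_setOfPred_prime).injective hij
        omega
    · exact BL_card r P h

lemma BL_prop {m W : ℕ} : ∀ (r : ℕ) (ps : List ℕ), List.Forall₂ (fun l P => l ∈ P) ps (BL m W r) →
    ps.length = r ∧ ps.Pairwise (· > ·) ∧ ∀ x ∈ ps, x.Prime ∧ Nat.nth Nat.Prime m ≤ x ∧
      x < Nat.nth Nat.Prime (m + r * (W + 1)) := by
  have hmono := Nat.nth_strictMono Nat.infinite_setOfPred_prime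
  intro r
  induction r with
  | zero =>
    intro ps h
    rw [BL, List.forall₂_nil_right_iff] at h
    subst h
    simp
  | succ r ih =>
    intro ps h
    rw [BL] at h
    cases h with
    | cons h1 h2 =>
      rename_i x ps'
      obtain ⟨h3, h4, h5⟩ := ih ps' h2
      rw [mem_image] at h1
      obtain ⟨i, hi, hx⟩ := h1
      rw [mem_range] at hi
      have hx1 : Nat.nth Nat.Prime (m + r * (W + 1)) ≤ x := by
        rw [← hx]
        exact hmono.monotone (by omega)
      have hx2 : x < Nat.nth Nat.Prime (m + (r + 1) * (W + 1)) := by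
        rw [← hx]
        refine hmono ?_
        rw [Nat.succ_mul]
        omega
      refine ⟨by rw [List.length_cons, h3], List.pairwise_cons.2 ⟨fun y hy => ?_, h4⟩, fun y hy => ?_⟩
      · have := (h5 y hy).2.2
        omega
      · rcases List.mem_cons.1 hy with rfl | hy
        · refine ⟨?_, ?_, hx2⟩
          · rw [← hx]
            exact Nat.nth_mem_of_infinite Nat.infinite_setOfPred_prime _
          · refine le_trans (hmono.monotone ?_) hx1
            omega
        · obtain ⟨h6, h7, h8⟩ := h5 y hy
          exact ⟨h6, h7, by omega⟩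

section

variable {K C D : ℕ} {al : ℕ → ℕ} {S : Finset (List ℕ)} {c : List ℕ → ℤ} {H : ℝ}

/-- if the sums over all the classes vanish, so do the coefficients -/
theorem all_zero (h : Dt K C D al S) (hH : ∑ w ∈ S, |(c w : ℝ)| ≤ H) {W L Z X : ℕ}
    (hW : D * (C - K) ≤ W) (hprime : H < primorial L ∨ W < Nat.primeCounting L)
    (hLZ : L ≤ Z) (hZ : Nat.primeCounting L + D * (W + 1) ≤ Nat.primeCounting Z) (hX1 : 1 ≤ X)
    (hX : Z ^ (D - 1) * L ≤ X) (hA : ∀ y, 1 ≤ y → y ≤ X → AA al S c X y = 0) :
    ∀ w ∈ S, c w = 0 := by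
  classical
  suffices hCC : ∀ ℓ, ∀ w ∈ S1 S, (w.map al).sum = ℓ → CC S c w = 0 by
    exact zero_of_CC fun w hw => hCC _ w (mem_union_left _ hw) rfl
  intro ℓ
  induction ℓ using Nat.strong_induction_on with
  | _ ℓ ih =>
    intro w0 hw0 hl0
    have hlD : ℓ ≤ D := by
      rw [← hl0]
      exact h.S1.hsum w0 hw0
    obtain ⟨a, ha⟩ : ∃ a, a = w0.map al := ⟨_, rfl⟩
    have hal : ∀ x ∈ a, 1 ≤ x := by
      rw [ha]
      exact h.S1.al_pos hw0
    have hasum : a.sum = ℓ := by rw [ha, hl0]
    have hlow : ∀ w ∈ S1 S, (w.map al).sum < a.sum → CC S c w = 0 := fun w hw hlt =>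
      ih _ (by rw [← hasum]; exact hlt) w hw rfl
    -- the equations
    have hcls : ∀ ps : List ℕ, ps.length = a.length → (∀ x ∈ ps, x.Prime) → ps.Pairwise (· > ·) →
        pw ps a ≤ X → ∑ w ∈ (S1 S).filter (fun w => w.map al = a), (CC S c w : ℝ) / (pw ps w : ℝ) = 0 := by
      intro ps h1 h2 h3 h4
      rw [← class_sum h hal hlow h1 h2 h3 hX1 h4]
      exact hA _ (one_le_pw _ _ fun x hx => (h2 x hx).one_le) h4
    rcases List.eq_nil_or_concat a with h1 | ⟨a1, e, h1⟩
    · -- the empty index
      subst h1
      have h2 := hcls [] rfl (by simp) List.Pairwise.nil (by simpa using hX1)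
      have hw0n : w0 = [] := List.map_eq_nil_iff.1 ha.symm
      have h3 : (S1 S).filter (fun w => w.map al = []) = {w0} := by
        ext w
        rw [mem_filter, mem_singleton, List.map_eq_nil_iff, hw0n]
        constructor
        · exact fun hw => hw.2
        · rintro rfl
          exact ⟨by rw [← hw0n]; exact hw0, rfl⟩
      rw [h3, sum_singleton] at h2
      simp only [pw_nil, Nat.cast_one, div_one] at h2
      exact_mod_cast h2
    · rw [List.concat_eq_append] at h1
      subst h1
      by_contra hcc0
      obtain ⟨r, hr⟩ : ∃ r, r = a1.length := ⟨_, rfl⟩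
      have he : 1 ≤ e := hal e (by simp)
      have hsum1 : a1.sum + e = ℓ := by
        rw [← hasum]
        simp
      have hr1 : r ≤ a1.sum := by
        rw [hr]
        exact length_le_sum fun x hx => hal x (by simp [hx])
      obtain ⟨T, hT⟩ : ∃ T, T = (S1 S).filter (fun w => w.map al = a1 ++ [e]) := ⟨_, rfl⟩
      have hTS : ∀ w ∈ T, w ∈ S1 S ∧ w.map al = a1 ++ [e] := by
        intro w hw
        rw [hT, mem_filter] at hw
        exact hw
      have hTlen : ∀ w ∈ T, w.length = r + 1 := by
        intro w hw
        have h3 := congrArg List.length (hTS w hw).2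
        simp at h3
        omega
      -- the primes of the blocks
      have hps : ∀ ps, List.Forall₂ (fun l P => l ∈ P) ps (BL (Nat.primeCounting L) W r) →
          ps.length = r ∧ ps.Pairwise (· > ·) ∧ ∀ x ∈ ps, x.Prime ∧ L < x ∧ x ≤ Z := by
        intro ps hps
        obtain ⟨h2, h3, h4⟩ := BL_prop r ps hps
        refine ⟨h2, h3, fun x hx => ?_⟩
        obtain ⟨h5, h6, h7⟩ := h4 x hx
        refine ⟨h5, ?_, ?_⟩
        · have h8 : L + 1 ≤ Nat.nth Nat.Prime (Nat.primeCounting L) :=
            (Nat.count_le_iff_le_nth Nat.infinite_setOfPred_prime).1 le_rfl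
          omega
        · have h8 : Nat.primeCounting L + r * (W + 1) ≤ Nat.primeCounting Z := by
            refine le_trans (Nat.add_le_add_left (Nat.mul_le_mul_right _ ?_) _) hZ
            omega
          obtain ⟨i, hi⟩ : ∃ i, Nat.nth Nat.Prime i = x := ⟨Nat.count Nat.Prime x, Nat.nth_count h5⟩
          rw [← hi] at h7 ⊢
          have h9 : i < Nat.primeCounting L + r * (W + 1) :=
            (Nat.nth_strictMono Nat.infinite_setOfPred_prime).lt_iff_lt.1 h7
          have h10 : Nat.nth Nat.Prime i < Z + 1 :=
            (Nat.lt_nth_iff_count_lt Nat.infinite_setOfPred_prime).1 (by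
              exact lt_of_lt_of_le h9 h8)
          omega
      have heq : ∀ q : ℕ, q.Prime → q ≤ L → ∀ ps,
          List.Forall₂ (fun l P => l ∈ P) ps (BL (Nat.primeCounting L) W r) →
          ∑ w ∈ T, ((CC S c w : ℝ) / (q : ℝ) ^ (w.getD r 0)) / (pw ps w : ℝ) = 0 := by
        intro q hq hqL ps hps'
        obtain ⟨h2, h3, h4⟩ := hps ps hps'
        have hZ1 : 1 ≤ Z := le_trans hq.one_le (hqL.trans hLZ)
        have h5 := hcls (ps ++ [q]) (by simp [h2, hr]) (fun x hx => by
            rw [List.mem_append] at hx
            rcases hx with hx | hx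
            · exact (h4 x hx).1
            · simp at hx
              rw [hx]
              exact hq) (by
            rw [List.pairwise_append]
            refine ⟨h3, by simp, fun x hx y hy => ?_⟩
            simp at hy
            rw [hy]
            have := (h4 x hx).2.1
            omega) (by
            rw [pw_append _ _ _ _ (by rw [h2, hr])]
            have h6 : pw ps a1 ≤ Z ^ a1.sum := pw_le hZ1 ps a1 fun x hx => (h4 x hx).2.2
            have h7 : pw [q] [e] ≤ Z ^ (e - 1) * L := by
              rw [pw_cons, pw_nil, mul_one]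
              obtain ⟨e', rfl⟩ := Nat.exists_eq_add_of_le he
              rw [Nat.add_sub_cancel_left, add_comm 1 e', pow_succ]
              exact Nat.mul_le_mul (Nat.pow_le_pow_left (hqL.trans hLZ) _) hqL
            calc pw ps a1 * pw [q] [e] ≤ Z ^ a1.sum * (Z ^ (e - 1) * L) := Nat.mul_le_mul h6 h7
              _ = Z ^ (a1.sum + (e - 1)) * L := by
                  rw [pow_add]
                  ring
              _ ≤ Z ^ (D - 1) * L := by
                  refine Nat.mul_le_mul_right L ?_
                  exact Nat.pow_le_pow_right hZ1 (by omega)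
              _ ≤ X := hX)
        rw [← hT] at h5
        rw [← h5]
        refine sum_congr rfl fun w hw => ?_
        rw [pw_append_single q ps w (by rw [h2, hTlen w hw]; omega), h2]
        push_cast
        rw [div_div, mul_comm ((q : ℝ) ^ _)]
      -- eliminate the first variables
      obtain ⟨u, hu⟩ : ∃ u, u = w0.take r := ⟨_, rfl⟩
      have hw0T : w0 ∈ T := by
        rw [hT, mem_filter]
        exact ⟨hw0, ha.symm⟩
      have hul : u.length = r := by
        rw [hu, List.length_take, hTlen w0 hw0T]
        omega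
      have helim : ∀ q : ℕ, q.Prime → q ≤ L →
          ∑ w ∈ T.filter (fun w => w.take r = u), (CC S c w : ℝ) / (q : ℝ) ^ (w.getD r 0) = 0 := by
        intro q hq hqL
        have h2 := elim (al := al) (K := K) (C := C) (W := W) (BL (Nat.primeCounting L) W r) T
          (fun w => (CC S c w : ℝ) / (q : ℝ) ^ (w.getD r 0)) (fun w => w) (a1 ++ [e])
          (by rw [BL_length, hr]; simp) (fun y hy => by
            refine le_trans (Nat.mul_le_mul_right _ ?_) hW
            have h3 := List.single_le_sum (l := a1 ++ [e]) (fun x _ => Nat.zero_le x) y hy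
            omega) (fun w hw => by
            obtain ⟨h3, h4⟩ := hTS w hw
            refine ⟨h4, fun x hx => ?_⟩
            have h5 := (h.S1.hS w h3 x hx).2
            exact ⟨by omega, h5.2⟩) (fun P hP => BL_card r P hP) (heq q hq hqL) u (by rw [BL_length, hul])
        rw [BL_length] at h2
        exact h2
      -- the last variable
      obtain ⟨Tu, hTu⟩ : ∃ Tu, Tu = T.filter (fun w => w.take r = u) := ⟨_, rfl⟩
      have hg : ∀ w ∈ Tu, w = u ++ [w.getD r 0] ∧ al (w.getD r 0) = e ∧ w.getD r 0 ∈ w := by
        intro w hw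
        rw [hTu, mem_filter] at hw
        obtain ⟨hwT, hwu⟩ := hw
        have h2 := (hTS w hwT).2
        rw [List.map_eq_append_iff] at h2
        obtain ⟨w1, w2, h3, h4, h5⟩ := h2
        rw [List.map_eq_singleton_iff] at h5
        obtain ⟨p, h6, h7⟩ := h5
        have h8 : w1.length = r := by rw [hr, ← h4, List.length_map]
        have h9 : w.take r = w1 := by
          rw [h3, List.take_append_of_le_length (by omega), ← h8, List.take_length]
        have h10 : w.getD r 0 = p := by
          rw [h3, List.getD_append_right _ _ _ _ (by omega), h8, h6]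
          simp
        rw [h10]
        refine ⟨?_, h7, by rw [h3, h6]; simp⟩
        rw [← hwu, h9, ← h6]
        exact h3
      obtain ⟨cc, hcc⟩ : ∃ cc : ℕ → ℤ, ∀ p, cc p = CC S c (u ++ [p]) := ⟨_, fun _ => rfl⟩
      obtain ⟨Su, hSu⟩ : ∃ Su, Su = Tu.image (fun w => w.getD r 0) := ⟨_, rfl⟩
      have hinj : ∀ w ∈ Tu, ∀ w' ∈ Tu, w.getD r 0 = w'.getD r 0 → w = w' := by
        intro w hw w' hw' h2
        rw [(hg w hw).1, (hg w' hw').1, h2]
      have hccw : ∀ w ∈ Tu, cc (w.getD r 0) = CC S c w := by
        intro w hw
        rw [hcc]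
        exact congrArg (CC S c) (hg w hw).1.symm
      have hzero : ∀ q : ℕ, q.Prime → q ≤ L → ∑ p ∈ Su, (cc p : ℝ) / (q : ℝ) ^ p = 0 := by
        intro q hq hqL
        rw [hSu, sum_image (fun w hw w' hw' h2 => hinj w hw w' hw' h2), ← helim q hq hqL, ← hTu]
        exact sum_congr rfl fun w hw => by rw [hccw w hw]
      have hw0Tu : w0 ∈ Tu := by
        rw [hTu, mem_filter]
        exact ⟨hw0T, hu.symm⟩
      have hTuS : ∀ w ∈ Tu, w ∈ S1 S := by
        intro w hw
        rw [hTu, mem_filter] at hw
        exact (hTS w hw.1).1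
      have hcc1 : ∃ p ∈ Su, cc p ≠ 0 := by
        refine ⟨w0.getD r 0, ?_, ?_⟩
        · rw [hSu]
          exact mem_image_of_mem _ hw0Tu
        · rw [hccw w0 hw0Tu]
          exact hcc0
      rcases hprime with h2 | h2
      · have h3 := DZ.primorial_le (S := Su) (c := cc) (H := H) hcc1 (fun p _ => by
          rw [hcc]
          exact CC_le hH _) hzero
        linarith
      · have h3 := DZ.primeCounting_le (S := Su) (c := cc) hcc1 (p0 := e * K) (W := W) (fun p hp => by
          rw [hSu, mem_image] at hp
          obtain ⟨w, hw, rfl⟩ := hp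
          obtain ⟨-, h4, h5⟩ := hg w hw
          have h6 := (h.S1.hS w (hTuS w hw) _ h5).2
          rw [h4] at h6
          have h7 : e * (C - K) ≤ W := (Nat.mul_le_mul_right _ (by omega)).trans hW
          refine ⟨by omega, h6.2.trans ?_⟩
          rcases Nat.le_total C K with h8 | h8
          · have := Nat.mul_le_mul_left e h8
            omega
          · have h9 : e * C = e * K + e * (C - K) := by
              rw [← Nat.mul_add]
              congr 1
              omega
            omega) hzero
        omega

end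

end Pool.Agent.NH24.GU
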