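import Pool.Agent.NH24.GU.C
import Pool.Agent.NH24.DZ.C

/-!
# Multiple zeta values of several weights: the explicit theorem, coefficients in a space of numbers with a
measure of linear independence
-/

set_option autoImplicit false

namespace Pool.Agent.NH24.GU

open Finset Filter
open Pool.Agent.NH24.GD (trunc mzv dec pw mem_dec sum_prod_le tendsto_trunc sz one_le_pw le_sz size_le
  dvd_size AA G1 G2 split)

/-- a measure of linear independence -/
def Meas {n : ℕ} (Θ : Fin n → ℝ) (c0 : ℝ) (κ : ℕ) : Prop :=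
  ∀ P : Fin n → ℤ, P ≠ 0 → ∀ H : ℝ, 1 ≤ H → (∀ i, |(P i : ℝ)| ≤ H) → c0 / H ^ κ ≤ |∑ i, (P i : ℝ) * Θ i|

lemma meas_one : Meas (![1] : Fin 1 → ℝ) 1 0 := by
  intro P hP H _ _
  rw [pow_zero, div_one]
  have h1 : P 0 ≠ 0 := by
    intro h
    apply hP
    funext i
    fin_cases i
    exact h
  have h2 : (1 : ℝ) ≤ |(P 0 : ℝ)| := by
    rw [← Int.cast_abs]
    exact_mod_cast Int.one_le_abs h1
  simpa using h2

section

variable {K C D : ℕ} {al : ℕ → ℕ} {S : Finset (List ℕ)} {H : ℝ}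

/-- **the explicit theorem** -/
theorem low {n : ℕ} {Θ : Fin n → ℝ} {c0 : ℝ} (hc0 : 0 < c0) {κ : ℕ} (hΘ : Meas Θ c0 κ)
    (h : Dt K C D al S) (hKC : K ≤ C) {P : List ℕ → Fin n → ℤ} (hP : ∃ w ∈ S, P w ≠ 0) (hH1 : 1 ≤ H)
    (hPH : ∀ i, ∑ w ∈ S, |(P w i : ℝ)| ≤ H) {W L Z X : ℕ} (hW : D * (C - K) ≤ W)
    (hprime : H < primorial L ∨ W < Nat.primeCounting L) (hLZ : L ≤ Z)
    (hZ : Nat.primeCounting L + D * (W + 1) ≤ Nat.primeCounting Z) (hX1 : 1 ≤ X)
    (hX : Z ^ (D - 1) * L ≤ X) {A : ℝ} (hA1 : 1 ≤ A) (hA : 2 * ((∑ i, |Θ i|) + 1) / c0 ≤ A)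
    (hnum : ∀ x : ℕ, 1 ≤ x → x ≤ X → A * (2 ^ D * H * (x : ℝ) ^ (C - K)) ^ (κ + 1) ≤ 2 ^ (K / x)) :
    1 / (A * (2 ^ D * H * (X : ℝ) ^ (C - K)) ^ (κ + 1) * (X : ℝ) ^ C) ≤
      |∑ w ∈ S, (∑ i, (P w i : ℝ) * Θ i) * mzv w| := by
  classical
  obtain ⟨B0, hB0⟩ : ∃ B0, B0 = ∑ i, |Θ i| := ⟨_, rfl⟩
  have hB00 : 0 ≤ B0 := by
    rw [hB0]
    positivity
  rw [← hB0] at hA
  -- a class that does not vanish
  have hex : ∃ x, 1 ≤ x ∧ x ≤ X ∧ ∃ i, AA al S (fun w => P w i) X x ≠ 0 := by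
    by_contra hcon
    push Not at hcon
    obtain ⟨w, hw, hPw⟩ := hP
    apply hPw
    funext i
    exact all_zero h (hPH i) hW hprime hLZ hZ hX1 hX (fun y hy1 hyX => hcon y hy1 hyX i) w hw
  obtain ⟨hx1, hxX, hxA⟩ := Nat.find_spec hex
  obtain ⟨x, hx⟩ : ∃ x, x = Nat.find hex := ⟨_, rfl⟩
  have hmin : ∀ i, ∀ y, 1 ≤ y → y < x → AA al S (fun w => P w i) X y = 0 := by
    intro i y hy1 hy2
    by_contra hcon
    rw [hx] at hy2
    exact Nat.find_min hex hy2 ⟨hy1, by omega, i, hcon⟩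
  rw [← hx] at hx1 hxX hxA
  obtain ⟨i0, hi0⟩ := hxA
  have hx0 : (1 : ℝ) ≤ x := by exact_mod_cast hx1
  have hxp : (0 : ℝ) < x := by linarith
  have hxXr : (x : ℝ) ≤ X := by exact_mod_cast hxX
  -- the bracket
  obtain ⟨E, hE⟩ : ∃ E, E = 2 ^ D * H * (x : ℝ) ^ (C - K) := ⟨_, rfl⟩
  obtain ⟨E', hE'⟩ : ∃ E', E' = 2 ^ D * H * (X : ℝ) ^ (C - K) := ⟨_, rfl⟩
  have hEE' : E ≤ E' := by
    rw [hE, hE']
    gcongr
  have hE1 : 1 ≤ E := by
    rw [hE]
    have e2 : (1 : ℝ) ≤ 2 ^ D := one_le_pow₀ (by norm_num)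
    have e3 : (1 : ℝ) ≤ (x : ℝ) ^ (C - K) := one_le_pow₀ hx0
    exact one_le_mul_of_one_le_of_one_le (one_le_mul_of_one_le_of_one_le e2 hH1) e3
  have hE0 : 0 < E := by linarith
  have hCK : (x : ℝ) ^ C = (x : ℝ) ^ (C - K) * (x : ℝ) ^ K := by
    rw [← pow_add]
    congr 1
    omega
  -- the main term
  have hmainterm : c0 / (E ^ κ * (x : ℝ) ^ C) ≤ |∑ i, Θ i * AA al S (fun w => P w i) X x| := by
    have hz : ∀ i, ∃ z : ℤ, AA al S (fun w => P w i) X x * (x : ℝ) ^ C = z := fun i => AA_int h _ X x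
    choose z hz using hz
    have hzE : ∀ i, |(z i : ℝ)| ≤ E := by
      intro i
      rw [← hz i, abs_mul, abs_of_pos (pow_pos hxp C)]
      calc |AA al S (fun w => P w i) X x| * (x : ℝ) ^ C ≤ (2 ^ D * H / (x : ℝ) ^ K) * (x : ℝ) ^ C :=
            mul_le_mul_of_nonneg_right (AA_le h (hPH i) X hx1) (by positivity)
        _ = 2 ^ D * H * (x : ℝ) ^ (C - K) := by
            rw [hCK]
            field_simp
        _ = E := hE.symm
    have hz0 : z ≠ 0 := by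
      intro h0
      have h1 := hz i0
      rw [h0, Pi.zero_apply, Int.cast_zero, mul_eq_zero] at h1
      exact h1.elim hi0 (pow_ne_zero _ hxp.ne')
    have h1 := hΘ z hz0 E hE1 hzE
    have h2 : ∑ i, (z i : ℝ) * Θ i = (∑ i, Θ i * AA al S (fun w => P w i) X x) * (x : ℝ) ^ C := by
      rw [sum_mul]
      refine sum_congr rfl fun i _ => ?_
      rw [← hz i]
      ring
    rw [h2, abs_mul, abs_of_pos (pow_pos hxp C)] at h1
    rw [← div_div, div_le_iff₀ (pow_pos hxp C)]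
    exact h1
  -- the tail
  have htail : ∀ M, |∑ i, Θ i * G2 al S (fun w => P w i) M x| ≤
      B0 * (2 ^ D * H / ((x : ℝ) + 1) ^ K) := by
    intro M
    refine (abs_sum_le_sum_abs _ _).trans ?_
    rw [hB0, sum_mul]
    refine sum_le_sum fun i _ => ?_
    rw [abs_mul]
    exact mul_le_mul_of_nonneg_left (G2_le h (hPH i) M x) (abs_nonneg _)
  have htail2 : B0 * (2 ^ D * H / ((x : ℝ) + 1) ^ K) ≤ c0 / (E ^ κ * (x : ℝ) ^ C) / 2 := by
    have h1 := hnum x hx1 hxX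
    rw [← hE] at h1
    have h2 := DZ.bern (K := K) hx1
    have h3 : A * E ^ (κ + 1) * (x : ℝ) ^ K ≤ ((x : ℝ) + 1) ^ K :=
      (mul_le_mul_of_nonneg_right h1 (by positivity)).trans h2
    have h4 : 2 * (B0 + 1) ≤ A * c0 := by
      rw [div_le_iff₀ hc0] at hA
      exact hA
    rw [mul_div_assoc', div_div, div_le_div_iff₀ (by positivity) (by positivity)]
    calc B0 * (2 ^ D * H) * (E ^ κ * (x : ℝ) ^ C * 2)
        = 2 * B0 * E ^ κ * (2 ^ D * H * (x : ℝ) ^ (C - K)) * (x : ℝ) ^ K := by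
          rw [hCK]
          ring
      _ = (2 * B0) * (E ^ (κ + 1) * (x : ℝ) ^ K) := by
          rw [← hE, pow_succ]
          ring
      _ ≤ (A * c0) * (E ^ (κ + 1) * (x : ℝ) ^ K) :=
          mul_le_mul_of_nonneg_right (by linarith) (by positivity)
      _ = c0 * (A * E ^ (κ + 1) * (x : ℝ) ^ K) := by ring
      _ ≤ c0 * ((x : ℝ) + 1) ^ K := mul_le_mul_of_nonneg_left h3 hc0.le
  -- the limit
  have hlim : Tendsto (fun M : ℕ => |∑ w ∈ S, (∑ i, (P w i : ℝ) * Θ i) * trunc w (M + 1)|) atTop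
      (nhds |∑ w ∈ S, (∑ i, (P w i : ℝ) * Θ i) * mzv w|) := by
    refine Tendsto.abs ?_
    refine tendsto_finsetSum _ fun w hw => ?_
    refine Tendsto.const_mul _ (tendsto_trunc w fun x hx => ?_)
    have := (h.hS w hw x hx).2.1
    omega
  have hlow : c0 / (E ^ κ * (x : ℝ) ^ C) / 2 ≤ |∑ w ∈ S, (∑ i, (P w i : ℝ) * Θ i) * mzv w| := by
    refine ge_of_tendsto hlim ?_
    filter_upwards [eventually_ge_atTop x] with M hM
    have h1 : ∑ w ∈ S, (∑ i, (P w i : ℝ) * Θ i) * trunc w (M + 1) =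
        ∑ i, Θ i * AA al S (fun w => P w i) X x + ∑ i, Θ i * G2 al S (fun w => P w i) M x := by
      rw [← sum_add_distrib]
      have h2 : ∀ i, Θ i * AA al S (fun w => P w i) X x + Θ i * G2 al S (fun w => P w i) M x =
          Θ i * ∑ w ∈ S, (P w i : ℝ) * trunc w (M + 1) := by
        intro i
        rw [← mul_add, split (al := al) S (fun w => P w i) M x, G1_eq h _ hM hxX]
        congr 2
        rw [← Finset.sum_subset (Finset.singleton_subset_iff.2 (mem_Icc.2 ⟨hx1, le_rfl⟩)), sum_singleton]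
        intro y hy hyx
        rw [mem_Icc] at hy
        rw [mem_singleton] at hyx
        exact hmin i y hy.1 (by omega)
      rw [sum_congr rfl fun i _ => h2 i]
      simp only [mul_sum, sum_mul]
      rw [sum_comm]
      refine sum_congr rfl fun i _ => sum_congr rfl fun w _ => ?_
      ring
    rw [h1]
    have h7 := abs_sub_abs_le_abs_sub (∑ i, Θ i * AA al S (fun w => P w i) X x)
      (-∑ i, Θ i * G2 al S (fun w => P w i) M x)
    rw [sub_neg_eq_add, abs_neg] at h7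
    have h8 := htail M
    linarith
  refine le_trans ?_ hlow
  -- the final inequality
  have hX0 : (0 : ℝ) < X := by exact_mod_cast hX1
  have hE'0 : 0 < E' := by linarith
  have hA0 : 0 < A := by linarith
  rw [← hE', div_div, div_le_div_iff₀ (by positivity) (by positivity), one_mul]
  have h4 : 2 * (B0 + 1) ≤ A * c0 := by
    rw [div_le_iff₀ hc0] at hA
    exact hA
  have h5 : E ^ κ ≤ E' ^ (κ + 1) := by
    calc E ^ κ ≤ E' ^ κ := pow_le_pow_left₀ hE0.le hEE' κ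
      _ ≤ E' ^ (κ + 1) := pow_le_pow_right₀ (by linarith) (by omega)
  calc E ^ κ * (x : ℝ) ^ C * 2 ≤ E' ^ (κ + 1) * (X : ℝ) ^ C * 2 := by gcongr
    _ = 2 * (E' ^ (κ + 1) * (X : ℝ) ^ C) := by ring
    _ ≤ (A * c0) * (E' ^ (κ + 1) * (X : ℝ) ^ C) :=
        mul_le_mul_of_nonneg_right (by linarith) (by positivity)
    _ = c0 * (A * E' ^ (κ + 1) * (X : ℝ) ^ C) := by ring

end

end Pool.Agent.NH24.GU
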