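import Pool.Agent.NH24.GU.F
import Pool.Agent.R404.WZ.P

/-!
# Small relations of growing degree are consequences of the stuffle product
-/

set_option autoImplicit false

namespace Pool.Agent.NH24.GU

open Finset Filter
open Pool.Agent.R404.MZ (asyH)
open Pool.Agent.Y760.ZG (mz)
open Pool.Agent.Y777.AM (ht)
open Pool.Agent.Y760.ZF (sti stil Cl mz_prod stil_count)
open Pool.Agent.Y777.AM.St (Ad ex ex_ne ex_nil prod_ex)
open Pool.Agent.R404.WZ (Wd ar wt wt_cons swl swl_ar swl_prop length_le_wt Wo Co expand Co_length ar_cons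
  ml ml_aeval ml_wt mem_ml)

/-- **small relations of growing degree are consequences of the stuffle product** -/
theorem transfer {n : ℕ} {Θ : Fin n → ℝ} {c0 : ℝ} (hc0 : 0 < c0) {κ : ℕ} (hΘ : Meas Θ c0 κ)
    (ρ C : ℝ) {a γ ε : ℝ} (ha : 0 ≤ a) (hγ0 : 0 < γ) (hγ1 : γ < 1) (hε : 0 < ε) :
    ∃ c : ℝ, 0 < c ∧ ∃ N0 : ℕ, ∀ N : ℕ, N0 ≤ N → ∀ D J : ℕ,
      (D : ℝ) * Real.log (Real.log N) ≤ c * Real.log N → (J : ℝ) ≤ (Real.log N) ^ a →
      ∀ (ι : Type) (s : Finset ι) (M : ι → List Wd),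
      (∀ i ∈ s, (∀ u ∈ M i, u ≠ [] ∧ ∀ y ∈ u, 1 ≤ y.1 ∧ y.2 ≤ J) ∧ ((M i).map wt).sum ≤ D) →
      ∀ P : ι → Fin n → ℤ, (∀ j, ∑ i ∈ s, |(P i j : ℝ)| ≤ (2 : ℝ) ^ ((N : ℝ) ^ γ)) →
      ∀ H : Finset (List ℕ), (∀ h ∈ H, (∀ m ∈ h, 1 ≤ m) ∧ (∀ x ∈ h.head?, 2 ≤ x) ∧
        (h.sum : ℝ) ≤ ρ * N ∧ ε * N ≤ ht h) → ∀ b : List ℕ → ℝ, (∀ h ∈ H, |b h| ≤ C ^ N) →
      |∑ i ∈ s, (∑ j, (P i j : ℝ) * Θ j) * ((M i).map fun u => mz (ar N u)).prod - ∑ h ∈ H, b h * mz h| ≤
        ((N : ℝ) ^ (ε * N))⁻¹ →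
      ∀ j, ∑ i ∈ s, (P i j : ℝ) * ((M i).map fun u => mz (ar N u)).prod = 0 ∧
      ∀ (A : Type) [CommRing A] (Z : List ℕ → A),
        (∀ u v, Ad u → Ad v → Z u * Z v = ((sti u v).map Z).sum) →
        ∑ i ∈ s, (P i j : A) * ((M i).map fun u => Z (ar N u)).prod = 0 := by
  classical
  obtain ⟨c, hc, hc1, N1, h1⟩ := words hc0 hΘ (a := a + 1) (γ := (1 + γ) / 2) (ε := ε / 4) (by linarith)
    (by linarith) (by linarith) (by linarith)
  obtain ⟨N2, h2⟩ := asyH ρ C (ε / 2) ε (by linarith) (by linarith)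
  have hk : Tendsto (fun k : ℕ => (k : ℝ)) atTop atTop := tendsto_natCast_atTop_atTop
  have hl : Tendsto (fun k : ℕ => Real.log k) atTop atTop := Real.tendsto_log_atTop.comp hk
  have hll : Tendsto (fun k : ℕ => Real.log (Real.log k)) atTop atTop := Real.tendsto_log_atTop.comp hl
  have f1 := hl.eventually_ge_atTop 4
  have f1' := hll.eventually_ge_atTop 1
  have logpow : ∀ r s δ : ℝ, 0 < s → 0 < δ → ∀ᶠ k : ℕ in atTop, Real.log k ^ r ≤ δ * (k : ℝ) ^ s := by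
    intro r s δ hs hδ
    have h1 := (isLittleO_log_rpow_rpow_atTop r hs).bound hδ
    filter_upwards [hk.eventually h1, f1, eventually_ge_atTop 1] with k h2 h3 h4
    have hk0 : (0 : ℝ) < k := by exact_mod_cast h4
    rw [Real.norm_of_nonneg (Real.rpow_nonneg (by linarith) _), Real.norm_of_nonneg (by positivity)] at h2
    exact h2
  have f2 := logpow 3 ((1 + γ) / 2) (1 / 4) (by linarith) (by norm_num)
  have f3 := logpow 3 1 (1 / 4) one_pos (by norm_num)
  have f4 : ∀ᶠ k : ℕ in atTop, (2 : ℝ) ≤ (k : ℝ) ^ ((1 - γ) / 2) :=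
    ((tendsto_rpow_atTop (by linarith)).comp hk).eventually_ge_atTop 2
  have f5 : ∀ᶠ k : ℕ in atTop, (2 : ℝ) ≤ (k : ℝ) ^ (ε / 4) :=
    ((tendsto_rpow_atTop (by linarith)).comp hk).eventually_ge_atTop 2
  obtain ⟨N3, h3⟩ := eventually_atTop.1 (f1.and (f1'.and (f2.and (f3.and (f4.and f5)))))
  refine ⟨c, hc, max (max N1 N2) (max N3 4), fun N hN D J hD hJ ι s M hM P hP H hH b hb hsmall => ?_⟩
  obtain ⟨g1, g1', g2, g3, g4, g5⟩ := h3 N (by omega)
  have hN4 : 4 ≤ N := by omega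
  have hNp : (0 : ℝ) < N := by
    have : 0 < N := by omega
    exact_mod_cast this
  have hNone : (1 : ℝ) ≤ N := by
    have : 1 ≤ N := by omega
    exact_mod_cast this
  obtain ⟨ℓ, hℓ⟩ : ∃ ℓ, ℓ = Real.log N := ⟨_, rfl⟩
  have hℓ0 : 0 < ℓ := by rw [hℓ]; linarith
  have hDℓ : (D : ℝ) ≤ ℓ := by
    have h5 : (D : ℝ) * 1 ≤ D * Real.log (Real.log N) := mul_le_mul_of_nonneg_left g1' (Nat.cast_nonneg D)
    have h6 : c * Real.log N ≤ 1 * Real.log N := mul_le_mul_of_nonneg_right hc1 (by linarith)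
    rw [hℓ]
    linarith
  have hD3 : (D : ℝ) * D * D ≤ ℓ ^ (3 : ℝ) := by
    have h5 : ℓ ^ (3 : ℝ) = ℓ * ℓ * ℓ := by
      rw [show (3 : ℝ) = ((3 : ℕ) : ℝ) by norm_num, Real.rpow_natCast]
      ring
    rw [h5]
    gcongr
  rw [Real.rpow_one, ← hℓ] at g3
  rw [← hℓ] at g2
  have hDN : D * D + 1 ≤ N := by
    have h5 : (D : ℝ) * D ≤ D * D * D ∨ D = 0 := by
      rcases Nat.eq_zero_or_pos D with h6 | h6
      · exact Or.inr h6
      · left
        have h7 : (1 : ℝ) ≤ D := by exact_mod_cast h6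
        exact le_mul_of_one_le_right (by positivity) h7
    rcases h5 with h5 | h5
    · have h6 : (D : ℝ) * D + 1 ≤ N := by
        have h7 : (4 : ℝ) ≤ N := by exact_mod_cast hN4
        linarith
      exact_mod_cast h6
    · subst h5
      omega
  have hlenM : ∀ i ∈ s, (M i).length ≤ D := fun i hi =>
    (R404.WZ.length_le_sum fun u hu => ⟨((hM i hi).1 u hu).1, fun y hy =>
      (((hM i hi).1 u hu).2 y hy).1⟩).trans (hM i hi).2
  have hlenu : ∀ i ∈ s, ∀ u ∈ M i, u.length ≤ D := by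
    intro i hi u hu
    have e1 := length_le_wt fun y hy => (((hM i hi).1 u hu).2 y hy).1
    have e2 : wt u ≤ ((M i).map wt).sum := List.single_le_sum (by simp) _
      (List.mem_map_of_mem hu)
    exact e1.trans (e2.trans (hM i hi).2)
  have hwo : ∀ w ∈ Wo s M, (∀ y ∈ w, 1 ≤ y.1 ∧ y.2 ≤ D * J) ∧ wt w ≤ D := by
    intro w hw
    rw [Wo, mem_biUnion] at hw
    obtain ⟨i, hi, hw⟩ := hw
    rw [List.mem_toFinset] at hw
    obtain ⟨e1, e2⟩ := swl_prop J (M i) (fun u hu => ((hM i hi).1 u hu).2) w hw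
    refine ⟨fun y hy => ⟨(e1 y hy).1, (e1 y hy).2.trans (Nat.mul_le_mul_right _ (hlenM i hi))⟩, ?_⟩
    rw [e2]
    exact (hM i hi).2
  have hDJ : ((D * J : ℕ) : ℝ) ≤ Real.log N ^ (a + 1) := by
    rw [← hℓ, Real.rpow_add_one hℓ0.ne']
    push_cast
    rw [← hℓ] at hJ
    rw [mul_comm (D : ℝ) J]
    exact mul_le_mul hJ hDℓ (Nat.cast_nonneg D) (by positivity)
  -- the number of words
  have hswl : ∀ i ∈ s, (swl (M i)).length ≤ 3 ^ (D * D * D) := by
    intro i hi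
    have e1 : (swl (M i)).length = (stil ((M i).map (ar N))).length := by
      rw [← swl_ar, List.length_map]
    rw [e1]
    refine (stil_count D ((M i).map (ar N)) (fun u hu => ?_)).2.trans ?_
    · obtain ⟨v, hv, rfl⟩ := List.mem_map.1 hu
      have : (ar N v).length = v.length := by unfold ar; rw [List.length_map]
      rw [this]
      exact hlenu i hi v hv
    · rw [List.length_map, ← pow_mul]
      refine Nat.pow_le_pow_right (by norm_num) ?_
      have := hlenM i hi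
      exact Nat.mul_le_mul (Nat.mul_le_mul_right _ this) this
  have hsize : ∀ j, ∑ w ∈ Wo s M, |(Co s M (fun i => P i j) w : ℝ)| ≤ (2 : ℝ) ^ ((N : ℝ) ^ ((1 + γ) / 2)) := by
    intro j
    refine (Co_length s M _ hswl).trans ?_
    have e0 : (N : ℝ) ^ ((1 + γ) / 2) = (N : ℝ) ^ ((1 - γ) / 2) * (N : ℝ) ^ γ := by
      rw [← Real.rpow_add hNp]
      congr 1
      ring
    have e2 : ((3 ^ (D * D * D) : ℕ) : ℝ) ≤ (2 : ℝ) ^ (D * D * D * 2 : ℝ) := by
      push_cast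
      have e3 : (2 : ℝ) ^ (D * D * D * 2 : ℝ) = (4 : ℝ) ^ (D * D * D) := by
        rw [show (4 : ℝ) = 2 ^ 2 by norm_num, ← pow_mul, ← Real.rpow_natCast]
        congr 1
        push_cast
        ring
      rw [e3]
      exact pow_le_pow_left₀ (by norm_num) (by norm_num) _
    have e5 : 0 < (N : ℝ) ^ γ := by positivity
    have e7 : (N : ℝ) ^ γ ≤ (N : ℝ) ^ ((1 + γ) / 2) / 2 := by
      rw [e0]
      nlinarith
    have e8 : (D * D * D * 2 : ℝ) ≤ (N : ℝ) ^ ((1 + γ) / 2) / 2 := by linarith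
    calc ((3 ^ (D * D * D) : ℕ) : ℝ) * ∑ i ∈ s, |((P i j : ℤ) : ℝ)|
        ≤ (2 : ℝ) ^ ((N : ℝ) ^ ((1 + γ) / 2) / 2) * (2 : ℝ) ^ ((N : ℝ) ^ ((1 + γ) / 2) / 2) := by
          refine mul_le_mul (e2.trans (Real.rpow_le_rpow_of_exponent_le one_le_two e8))
            ((hP j).trans (Real.rpow_le_rpow_of_exponent_le one_le_two e7))
            (sum_nonneg fun _ _ => abs_nonneg _) (by positivity)
      _ = _ := by
          rw [← Real.rpow_add two_pos]
          congr 1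
          ring
  -- the expansion of the real values
  have hCl : ∀ i ∈ s, ∀ u ∈ (M i).map (ar N), Cl N ((D : ℝ) * N + J) D u := by
    intro i hi u hu
    obtain ⟨v, hv, rfl⟩ := List.mem_map.1 hu
    have e0 : (ar N v).length = v.length := by unfold ar; rw [List.length_map]
    have hvp := ((hM i hi).1 v hv).2
    refine ⟨by rw [e0]; exact hlenu i hi v hv, fun m hm => ?_, fun k hk => ?_⟩
    · unfold ar at hm
      obtain ⟨y, hy, rfl⟩ := List.mem_map.1 hm
      have e1 := hvp y hy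
      have e2 : N ≤ y.1 * N := Nat.le_mul_of_pos_left _ e1.1
      refine ⟨by omega, ?_⟩
      have e3 : y.1 ≤ D := by
        have e4 : y.1 ≤ wt v := List.single_le_sum (by simp) _ (List.mem_map_of_mem hy)
        have e5 : wt v ≤ ((M i).map wt).sum := List.single_le_sum (by simp) _
          (List.mem_map_of_mem hv)
        exact e4.trans (e5.trans (hM i hi).2)
      have e4 : y.1 * N + y.2 ≤ D * N + J := Nat.add_le_add (Nat.mul_le_mul_right _ e3) e1.2
      exact_mod_cast e4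
    · cases v with
      | nil => exact absurd rfl ((hM i hi).1 [] hv).1
      | cons y v =>
        rw [ar_cons, List.head?_cons, Option.mem_def, Option.some.injEq] at hk
        have e1 := (hvp y List.mem_cons_self).1
        have e2 : N ≤ y.1 * N := Nat.le_mul_of_pos_left _ e1
        omega
  have hprod : ∀ {A : Type} [CommRing A] (F : List ℕ → A) (i : ι),
      (((M i).map (ar N)).map F).prod = ((stil ((M i).map (ar N))).map F).sum →
      ((M i).map fun u => F (ar N u)).prod = ((swl (M i)).map fun u => F (ar N u)).sum := by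
    intro A _ F i h
    rw [← swl_ar, List.map_map, List.map_map] at h
    exact h
  have hK0 : (0 : ℝ) ≤ (D : ℝ) * N + J := by positivity
  have hmzp : ∀ i ∈ s, ((M i).map fun u => mz (ar N u)).prod = ((swl (M i)).map fun u => mz (ar N u)).sum := by
    intro i hi
    refine hprod mz i (mz_prod (n := N) (K := (D : ℝ) * N + J) hK0 (r := D) _ (hCl i hi) ?_)
    rw [List.length_map]
    have := hlenM i hi
    have e1 := Nat.mul_le_mul_right D this
    omega
  have hreal : ∀ j, ∑ i ∈ s, (P i j : ℝ) * ((M i).map fun u => mz (ar N u)).prod =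
      ∑ v ∈ Wo s M, (Co s M (fun i => P i j) v : ℝ) * mz (ar N v) := fun j =>
    expand s M (fun i => P i j) (A := ℝ) (fun u => mz (ar N u)) hmzp
  have hzero : ∀ j, ∀ v ∈ Wo s M, Co s M (fun i => P i j) v = 0 := by
    by_contra hcon
    push Not at hcon
    obtain ⟨j0, v0, hv0, hcon⟩ := hcon
    have g7 := h1 N (by omega) D (D * J) hD hDJ (Wo s M) hwo (fun v j => Co s M (fun i => P i j) v)
      ⟨v0, hv0, fun h0 => hcon (congrFun h0 j0)⟩ hsize
    have g8 : ∑ w ∈ Wo s M, (∑ j, (Co s M (fun i => P i j) w : ℝ) * Θ j) * mz (ar N w) =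
        ∑ i ∈ s, (∑ j, (P i j : ℝ) * Θ j) * ((M i).map fun u => mz (ar N u)).prod := by
      have e1 : ∑ w ∈ Wo s M, (∑ j, (Co s M (fun i => P i j) w : ℝ) * Θ j) * mz (ar N w) =
          ∑ j, Θ j * ∑ w ∈ Wo s M, (Co s M (fun i => P i j) w : ℝ) * mz (ar N w) := by
        simp only [sum_mul, mul_sum]
        rw [sum_comm]
        refine sum_congr rfl fun j _ => sum_congr rfl fun w _ => ?_
        ring
      rw [e1, sum_congr rfl fun j _ => by rw [← hreal j]]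
      simp only [sum_mul, mul_sum]
      rw [sum_comm]
      refine sum_congr rfl fun j _ => sum_congr rfl fun w _ => ?_
      ring
    rw [g8] at g7
    have g9 := h2 N (by omega) H hH b hb
    have g10 := abs_sub_abs_le_abs_sub
      (∑ i ∈ s, (∑ j, (P i j : ℝ) * Θ j) * ((M i).map fun u => mz (ar N u)).prod) (∑ h ∈ H, b h * mz h)
    have g11 : ((N : ℝ) ^ (ε * N))⁻¹ ≤ ((N : ℝ) ^ (ε / 2 * N))⁻¹ := by
      refine inv_anti₀ (by positivity) ?_
      refine Real.rpow_le_rpow_of_exponent_le hNone ?_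
      nlinarith
    have g12 : 2 * ((N : ℝ) ^ (ε / 2 * N))⁻¹ ≤ ((N : ℝ) ^ (ε / 4 * N))⁻¹ := by
      have g13 : (N : ℝ) ^ (ε / 2 * N) = (N : ℝ) ^ (ε / 4 * N) * (N : ℝ) ^ (ε / 4 * N) := by
        rw [← Real.rpow_add hNp]
        congr 1
        ring
      have g14 : (2 : ℝ) ≤ (N : ℝ) ^ (ε / 4 * N) := by
        refine g5.trans ?_
        refine Real.rpow_le_rpow_of_exponent_le hNone ?_
        nlinarith
      have g15 : (0 : ℝ) < (N : ℝ) ^ (ε / 4 * N) := by positivity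
      rw [g13, mul_inv, ← mul_assoc]
      have g16 : 2 * ((N : ℝ) ^ (ε / 4 * N))⁻¹ ≤ 1 := by
        rw [← div_eq_mul_inv, div_le_one g15]
        exact g14
      calc 2 * ((N : ℝ) ^ (ε / 4 * N))⁻¹ * ((N : ℝ) ^ (ε / 4 * N))⁻¹
          ≤ 1 * ((N : ℝ) ^ (ε / 4 * N))⁻¹ := mul_le_mul_of_nonneg_right g16 (by positivity)
        _ = _ := one_mul _
    linarith
  intro j
  refine ⟨?_, fun A _ Z hZ => ?_⟩
  · rw [hreal j]
    exact sum_eq_zero fun v hv => by rw [hzero j v hv, Int.cast_zero, zero_mul]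
  · have e1 : ∀ i ∈ s, (P i j : A) * ((M i).map fun u => Z (ar N u)).prod =
        (P i j : A) * ((M i).map fun u => ex Z (ar N u)).prod := by
      intro i hi
      congr 2
      refine List.map_congr_left fun u hu => ?_
      rw [ex_ne Z]
      intro h
      unfold ar at h
      exact ((hM i hi).1 u hu).1 (List.map_eq_nil_iff.1 h)
    rw [sum_congr rfl e1, expand s M (fun i => P i j) (A := A) (fun u => ex Z (ar N u)) (fun i hi =>
      hprod (ex Z) i (prod_ex hZ (n := N) (by omega) (K := (D : ℝ) * N + J) hK0 (r := D) _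
        (hCl i hi)))]
    exact sum_eq_zero fun v hv => by rw [hzero j v hv, Int.cast_zero, zero_mul]

/-- **polynomials**, coefficients in the span of the `Θ_j` -/
theorem poly {n : ℕ} {Θ : Fin n → ℝ} {c0 : ℝ} (hc0 : 0 < c0) {κ : ℕ} (hΘ : Meas Θ c0 κ)
    (ρ C : ℝ) {a γ ε : ℝ} (ha : 0 ≤ a) (hγ0 : 0 < γ) (hγ1 : γ < 1) (hε : 0 < ε) :
    ∃ c : ℝ, 0 < c ∧ ∃ N0 : ℕ, ∀ N : ℕ, N0 ≤ N → ∀ D J : ℕ,
      (D : ℝ) * Real.log (Real.log N) ≤ c * Real.log N → (J : ℝ) ≤ (Real.log N) ^ a →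
      ∀ f : Fin n → MvPolynomial Wd ℤ, (∀ j, ∀ m ∈ (f j).support,
        (∀ w ∈ m.support, w ≠ [] ∧ ∀ y ∈ w, 1 ≤ y.1 ∧ y.2 ≤ J) ∧
        ∑ w ∈ m.support, m w * wt w ≤ D) →
      (∀ j, ∑ m ∈ (f j).support, |(((f j).coeff m : ℤ) : ℝ)| ≤ (2 : ℝ) ^ ((N : ℝ) ^ γ)) →
      ∀ H : Finset (List ℕ), (∀ h ∈ H, (∀ m ∈ h, 1 ≤ m) ∧ (∀ x ∈ h.head?, 2 ≤ x) ∧
        (h.sum : ℝ) ≤ ρ * N ∧ ε * N ≤ ht h) → ∀ b : List ℕ → ℝ, (∀ h ∈ H, |b h| ≤ C ^ N) →
      |∑ j, Θ j * MvPolynomial.aeval (fun w => mz (ar N w)) (f j) - ∑ h ∈ H, b h * mz h| ≤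
        ((N : ℝ) ^ (ε * N))⁻¹ →
      ∀ j, MvPolynomial.aeval (fun w => mz (ar N w)) (f j) = 0 ∧
      ∀ (A : Type) [CommRing A] (Z : List ℕ → A),
        (∀ u v, Ad u → Ad v → Z u * Z v = ((sti u v).map Z).sum) →
        MvPolynomial.aeval (fun w => Z (ar N w)) (f j) = 0 := by
  classical
  obtain ⟨c, hc, N0, h0⟩ := transfer hc0 hΘ ρ C ha hγ0 hγ1 hε
  refine ⟨c, hc, N0, fun N hN D J hD hJ f hf hfC H hH b hb hsmall j => ?_⟩
  obtain ⟨s, hs⟩ : ∃ s : Finset (Wd →₀ ℕ), s = Finset.univ.biUnion fun j => (f j).support := ⟨_, rfl⟩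
  have hsub : ∀ j, (f j).support ⊆ s := by
    intro j m hm
    rw [hs, mem_biUnion]
    exact ⟨j, mem_univ _, hm⟩
  have hext : ∀ (A : Type) [CommRing A] (F : Wd → A) (j : Fin n),
      MvPolynomial.aeval F (f j) = ∑ m ∈ s, (((f j).coeff m : ℤ) : A) * ((ml m).map F).prod := by
    intro A _ F j
    rw [ml_aeval]
    refine sum_subset (hsub j) fun m _ hm => ?_
    rw [MvPolynomial.notMem_support_iff.1 hm, Int.cast_zero, zero_mul]
  have h1 := h0 N hN D J hD hJ (Wd →₀ ℕ) s ml (fun m hm => by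
    rw [hs, mem_biUnion] at hm
    obtain ⟨j, -, hm⟩ := hm
    exact ⟨fun u hu => (hf j m hm).1 u (mem_ml hu), by rw [ml_wt]; exact (hf j m hm).2⟩)
    (fun m j => (f j).coeff m) (fun j => by
      refine le_trans (le_of_eq ?_) (hfC j)
      symm
      refine sum_subset (hsub j) fun m _ hm => ?_
      rw [MvPolynomial.notMem_support_iff.1 hm, Int.cast_zero, abs_zero]) H hH b hb (by
      have e1 : ∑ i ∈ s, (∑ j, (((f j).coeff i : ℤ) : ℝ) * Θ j) * ((ml i).map fun u => mz (ar N u)).prod =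
          ∑ j, Θ j * MvPolynomial.aeval (fun w => mz (ar N w)) (f j) := by
        rw [sum_congr rfl (fun j _ => by rw [hext ℝ (fun w => mz (ar N w)) j] :
          ∀ j ∈ (univ : Finset (Fin n)), Θ j * MvPolynomial.aeval (fun w => mz (ar N w)) (f j) = _)]
        simp only [sum_mul, mul_sum]
        rw [sum_comm]
        refine sum_congr rfl fun j _ => sum_congr rfl fun w _ => ?_
        ring
      rw [e1]
      exact hsmall) j
  refine ⟨by rw [hext]; exact h1.1, fun A _ Z hZ => ?_⟩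
  rw [hext]
  exact h1.2 A Z hZ

end Pool.Agent.NH24.GU
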