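import Pool.Agent.NH24.GU.F
import Pool.Agent.NH24.GD.H

/-!
# Multiple zeta values of weight `k` and growing depth, arguments near multiples of `k / b`
-/

set_option autoImplicit false

namespace Pool.Agent.NH24.GU

open Finset Filter
open Pool.Agent.NH24.GD (trunc mzv Near alpha near_data near_of)

theorem depth {n : ℕ} {Θ : Fin n → ℝ} {c0 : ℝ} (hc0 : 0 < c0) {κ : ℕ} (hΘ : Meas Θ c0 κ)
    {a γ ε : ℝ} (ha : 0 ≤ a) (hγ0 : 0 < γ) (hγ1 : γ < 1) (hε : 0 < ε) :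
    ∃ c : ℝ, 0 < c ∧ ∃ k0 : ℕ, ∀ k : ℕ, k0 ≤ k → ∀ b : ℕ, 1 ≤ b →
      (b : ℝ) * Real.log (Real.log k) ≤ c * Real.log k → ∀ S : Finset (List ℕ),
      (∀ w ∈ S, w.sum = k ∧ ∀ x ∈ w, ∃ j : ℕ, 1 ≤ j ∧ |(b : ℝ) * x - j * k| ≤ (Real.log k) ^ a) →
      ∀ P : List ℕ → Fin n → ℤ, (∃ w ∈ S, P w ≠ 0) →
      (∀ w ∈ S, ∀ i, |(P w i : ℝ)| ≤ (2 : ℝ) ^ ((k : ℝ) ^ γ)) →
      ((k : ℝ) ^ (ε * k))⁻¹ < |∑ w ∈ S, (∑ i, (P w i : ℝ) * Θ i) * mzv w| := by
  classical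
  obtain ⟨c, hc, hc1, k1, h0⟩ := final hc0 hΘ (a := a + 1) (γ := (1 + γ) / 2) (ε := ε) (by linarith)
    (by linarith) (by linarith) hε
  have hk : Tendsto (fun k : ℕ => (k : ℝ)) atTop atTop := tendsto_natCast_atTop_atTop
  have hl : Tendsto (fun k : ℕ => Real.log k) atTop atTop := Real.tendsto_log_atTop.comp hk
  have hll : Tendsto (fun k : ℕ => Real.log (Real.log k)) atTop atTop := Real.tendsto_log_atTop.comp hl
  have f1 := hl.eventually_ge_atTop 8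
  have f1' := hll.eventually_ge_atTop 2
  have logpow : ∀ r s δ : ℝ, 0 < s → 0 < δ → ∀ᶠ k : ℕ in atTop, Real.log k ^ r ≤ δ * (k : ℝ) ^ s := by
    intro r s δ hs hδ
    have h1 := (isLittleO_log_rpow_rpow_atTop r hs).bound hδ
    filter_upwards [hk.eventually h1, f1, eventually_ge_atTop 1] with k h2 h3 h4
    have hk0 : (0 : ℝ) < k := by exact_mod_cast h4
    rw [Real.norm_of_nonneg (Real.rpow_nonneg (by linarith) _), Real.norm_of_nonneg (by positivity)] at h2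
    exact h2
  have f2 := logpow 2 ((1 + γ) / 2) (1 / 8) (by linarith) (by norm_num)
  have f3 := logpow (a + 1) 1 (1 / 32) one_pos (by norm_num)
  have f4 : ∀ᶠ k : ℕ in atTop, (2 : ℝ) ≤ (k : ℝ) ^ ((1 - γ) / 2) :=
    ((tendsto_rpow_atTop (by linarith)).comp hk).eventually_ge_atTop 2
  obtain ⟨k3, h3⟩ := eventually_atTop.1 (f1.and (f1'.and (f2.and (f3.and f4))))
  refine ⟨c, hc, max (max k1 k3) 4, fun k hkk b hb hbk S hS P hP hPH => ?_⟩
  obtain ⟨g1, g1', g2, g3, g4⟩ := h3 k (by omega)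
  have hk4 : 4 ≤ k := by omega
  have hkp : (0 : ℝ) < k := by
    have : 0 < k := by omega
    exact_mod_cast this
  have hkone : (1 : ℝ) ≤ k := by
    have : 1 ≤ k := by omega
    exact_mod_cast this
  obtain ⟨ℓ, hℓ⟩ : ∃ ℓ, ℓ = Real.log k := ⟨_, rfl⟩
  rw [← hℓ] at g1 g2 g3 hS
  rw [Real.rpow_one] at g3
  have hℓ0 : 0 < ℓ := by linarith
  have hbℓ : (b : ℝ) ≤ ℓ / 2 := by
    have h5 : (b : ℝ) * 2 ≤ b * Real.log (Real.log k) := mul_le_mul_of_nonneg_left g1' (Nat.cast_nonneg b)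
    have h6 : c * Real.log k ≤ 1 * Real.log k := mul_le_mul_of_nonneg_right hc1 (by rw [← hℓ]; linarith)
    rw [hℓ]
    linarith
  have hb0 : (1 : ℝ) ≤ b := by exact_mod_cast hb
  obtain ⟨R, hR⟩ : ∃ R, R = ⌊ℓ ^ a⌋₊ := ⟨_, rfl⟩
  have hRr : (R : ℝ) ≤ ℓ ^ a := by
    rw [hR]
    exact Nat.floor_le (by positivity)
  have h1a : 1 ≤ ℓ ^ a := Real.one_le_rpow (by linarith) ha
  have haa : ℓ ^ (a + 1) = ℓ ^ a * ℓ := Real.rpow_add_one hℓ0.ne' a
  -- numerical inequalities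
  have hbR : 8 * ((b : ℝ) * R) + 16 * b + 16 ≤ k := by
    have h5 : (b : ℝ) * R ≤ ℓ / 2 * ℓ ^ a := mul_le_mul hbℓ hRr (Nat.cast_nonneg R) (by linarith)
    have h6 : ℓ ≤ ℓ ^ (a + 1) := by
      rw [haa]
      nlinarith
    have h7 : (8 : ℝ) ≤ ℓ ^ (a + 1) := g1.trans h6
    have h8 : ℓ / 2 * ℓ ^ a = ℓ ^ (a + 1) / 2 := by
      rw [haa]
      ring
    linarith
  have hbRn : 8 * (b * R) + 16 * b + 16 ≤ k := by exact_mod_cast hbR
  have hRb : R ≤ b * R := Nat.le_mul_of_pos_left R hb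
  have hnear : Near b k R S := by
    intro w hw
    obtain ⟨h5, h6⟩ := hS w hw
    refine ⟨h5, fun x hx => ?_⟩
    obtain ⟨j, h7, h8⟩ := h6 x hx
    refine ⟨j, h7, ?_⟩
    rw [hR]
    exact near_of (by positivity) h8
  have hdat := near_data (b := b) (k := k) (R := R) (S := S) (c := fun _ => 0) (H := 0) hb (by omega)
    (by rw [mul_assoc]; omega) hnear (fun _ _ => by simp) le_rfl
  have hcard : (S.card : ℝ) ≤ ((k : ℝ) + 1) ^ b := by
    exact_mod_cast GD.card_le hdat fun w hw => (hS w hw).1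
  have hDt : Dt ((k - R - 2 * b) / b) ((k + R) / b + 1) b (alpha b k) S :=
    ⟨hdat.hS, fun w hw => (hdat.hsum w hw).le⟩
  obtain ⟨K, hK⟩ : ∃ K, K = (k - R - 2 * b) / b := ⟨_, rfl⟩
  obtain ⟨C, hC⟩ : ∃ C, C = (k + R) / b + 1 := ⟨_, rfl⟩
  rw [← hK, ← hC] at hDt
  have hK1 : b * K ≤ k - R - 2 * b := by
    rw [hK]
    exact Nat.mul_div_le _ _
  have hK2 : k - R - 2 * b < b * (K + 1) := by
    have := Nat.lt_mul_div_succ (k - R - 2 * b) (show 0 < b by omega)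
    rw [← hK] at this
    exact this
  have hC1 : b * (C - 1) ≤ k + R := by
    rw [hC, Nat.add_sub_cancel]
    exact Nat.mul_div_le _ _
  have hC2 : k + R < b * C := by
    have := Nat.lt_mul_div_succ (k + R) (show 0 < b by omega)
    rw [hC]
    exact this
  have hKC : K ≤ C := by
    have h5 : b * K ≤ b * C := by omega
    exact Nat.le_of_mul_le_mul_left h5 (by omega)
  have hCK : C - K ≤ 2 * R + 5 := by
    have h5 : b * (C - 1) ≤ b * (K + (2 * R + 3)) + b := by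
      have h6 : b * (K + (2 * R + 3)) = b * K + 2 * (b * R) + 3 * b := by ring
      have h7 : b * (K + 1) = b * K + b := by ring
      omega
    have h6 : b * (C - 1) ≤ b * (K + (2 * R + 3) + 1) := by
      rw [Nat.mul_add b (K + (2 * R + 3)) 1, mul_one]
      exact h5
    have h7 := Nat.le_of_mul_le_mul_left h6 (show 0 < b by omega)
    omega
  have hC3 : C ≤ 2 * k := by
    have h5 : C - 1 ≤ b * (C - 1) := Nat.le_mul_of_pos_left _ hb
    omega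
  have hKr : (k : ℝ) / Real.log k ≤ K := by
    rw [← hℓ, div_le_iff₀ hℓ0]
    have h5 : ((k - R - 2 * b : ℕ) : ℝ) < (b : ℝ) * (K + 1) := by exact_mod_cast hK2
    rw [Nat.cast_sub (by omega), Nat.cast_sub (by omega)] at h5
    push_cast at h5
    have h6 : (R : ℝ) ≤ b * R := by exact_mod_cast hRb
    have h7 : (k : ℝ) / 2 ≤ b * K := by linarith
    have h8 : (b : ℝ) * K ≤ ℓ / 2 * K := mul_le_mul_of_nonneg_right hbℓ (Nat.cast_nonneg K)
    nlinarith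
  have hRR : ((2 * R + 5 : ℕ) : ℝ) ≤ Real.log k ^ (a + 1) := by
    rw [← hℓ, haa]
    push_cast
    nlinarith
  have hsize : ∀ i, ∑ w ∈ S, |(P w i : ℝ)| ≤ (2 : ℝ) ^ ((k : ℝ) ^ ((1 + γ) / 2)) := by
    intro i
    have e0 : (k : ℝ) ^ ((1 + γ) / 2) = (k : ℝ) ^ ((1 - γ) / 2) * (k : ℝ) ^ γ := by
      rw [← Real.rpow_add hkp]
      congr 1
      ring
    have e5 : 0 < (k : ℝ) ^ γ := by positivity
    have e7 : (k : ℝ) ^ γ ≤ (k : ℝ) ^ ((1 + γ) / 2) / 2 := by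
      rw [e0]
      nlinarith
    have e8 : ((k : ℝ) + 1) ^ b ≤ (2 : ℝ) ^ ((k : ℝ) ^ ((1 + γ) / 2) / 2) := by
      have h5 : ((k : ℝ) + 1) ≤ (k : ℝ) ^ 2 := by
        have h6 : (4 : ℝ) ≤ k := by exact_mod_cast hk4
        nlinarith
      have h6 : ((k : ℝ) + 1) ^ b ≤ ((k : ℝ) ^ 2) ^ b := pow_le_pow_left₀ (by linarith) h5 b
      refine h6.trans ?_
      rw [← pow_mul, ← Real.log_le_log_iff (by positivity) (by positivity), Real.log_pow,
        Real.log_rpow two_pos, ← hℓ]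
      push_cast
      have h7 : 2 * (b : ℝ) * ℓ ≤ ℓ ^ 2 := by nlinarith
      have h8 : ℓ ^ 2 ≤ 1 / 8 * (k : ℝ) ^ ((1 + γ) / 2) := by
        have h9 : ℓ ^ (2 : ℝ) = ℓ ^ 2 := by
          rw [show (2 : ℝ) = ((2 : ℕ) : ℝ) by norm_num, Real.rpow_natCast]
        rw [← h9]
        exact g2
      have h9 : (1 : ℝ) / 2 ≤ Real.log 2 := by
        have := Real.log_two_gt_d9
        linarith
      have h10 : 0 < (k : ℝ) ^ ((1 + γ) / 2) := by positivity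
      have h11 : (k : ℝ) ^ ((1 + γ) / 2) / 2 * (1 / 2) ≤ (k : ℝ) ^ ((1 + γ) / 2) / 2 * Real.log 2 :=
        mul_le_mul_of_nonneg_left h9 (by linarith)
      have h12 : 2 * (b : ℝ) * ℓ ≤ (k : ℝ) ^ ((1 + γ) / 2) / 2 * (1 / 2) := by
        refine h7.trans (h8.trans ?_)
        linarith
      exact h12.trans h11
    calc ∑ w ∈ S, |(P w i : ℝ)| ≤ ∑ _w ∈ S, (2 : ℝ) ^ ((k : ℝ) ^ γ) := sum_le_sum fun w hw => hPH w hw i
      _ = S.card * (2 : ℝ) ^ ((k : ℝ) ^ γ) := by rw [sum_const, nsmul_eq_mul]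
      _ ≤ (2 : ℝ) ^ ((k : ℝ) ^ ((1 + γ) / 2) / 2) * (2 : ℝ) ^ ((k : ℝ) ^ ((1 + γ) / 2) / 2) :=
          mul_le_mul (hcard.trans e8) (Real.rpow_le_rpow_of_exponent_le one_le_two e7) (by positivity)
            (by positivity)
      _ = _ := by
          rw [← Real.rpow_add two_pos]
          congr 1
          ring
  exact h0 k (by omega) b (2 * R + 5) K C hbk hRR hKr hC3 hKC hCK (alpha b k) S hDt P hP hsize

end Pool.Agent.NH24.GU
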